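import Mathlib.Computability.DFA

namespace Pool.Agent.MP_042a8e_lc

/-- One step of derivation in the OS scheme with production list `P`. -/
def Step {α : Type} (P : List (α × List α)) (x y : List α) : Prop :=
  ∃ (x₁ x₂ : List α) (a : α) (v : List α),
    (a, v) ∈ P ∧ x = x₁ ++ [a] ++ x₂ ∧ y = x₁ ++ v ++ x₂

/-- The derivation relation: reflexive transitive closure of `Step P`. -/
def Der {α : Type} (P : List (α × List α)) : List α → List α → Prop :=
  Relation.ReflTransGen (Step P)

/-- The closure of a language under derivation. -/
def cl {α : Type} (P : List (α × List α)) (L : Language α) : Language α :=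
  {x | ∃ w ∈ L, Der P w x}

/-- The derivation relation is a total regulator. -/
def TotalRegulator {α : Type} (P : List (α × List α)) : Prop :=
  ∀ L : Language α, (cl P L).IsRegular

end Pool.Agent.MP_042a8e_lc
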