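import Mathlib.Tactic.Linarith.Frontend
import Mathlib.Order.Lattice.Nat
import Mathlib.Data.Nat.SuccPred
import Mathlib.Algebra.Notation.Lemmas
import Mathlib.Order.Filter.Ultrafilter.Basic
import Mathlib.Data.Int.ConditionallyCompleteOrder
import Mathlib.Data.Int.Star
import Mathlib.Algebra.Order.Ring.Star
import Mathlib.Tactic.Algebra.Basic

namespace Pool.Agent.MP_042a8e_lc

/-- Lexicographic value of the first `n` potentials. -/
def val {ν : Type} (pot : ν → ℕ) (L : ℕ) : ℕ → List ν → ℕ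
  | 0, _ => 0
  | _ + 1, [] => 0
  | n + 1, x :: t => pot x * (L + 1) ^ n + val pot L n t

theorem val_lt {ν : Type} (pot : ν → ℕ) (L : ℕ) (hb : ∀ x, pot x ≤ L) (n : ℕ) (l : List ν) :
    val pot L n l < (L + 1) ^ n := by
  induction n generalizing l with
  | zero => simp [val]
  | succ n ih =>
    cases l with
    | nil => simp [val]
    | cons x t =>
      have h1 := ih t
      have h2 := Nat.mul_le_mul_right ((L + 1) ^ n) (hb x)
      simp only [val, pow_succ]
      nlinarith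

theorem val_improve {ν : Type} (pot : ν → ℕ) (L : ℕ) (hb : ∀ x, pot x ≤ L) (n : ℕ)
    (C R R' : List ν) (x u : ν) (hC : C.length < n) (h : pot x < pot u) :
    val pot L n (C ++ x :: R') < val pot L n (C ++ u :: R) := by
  induction C generalizing n with
  | nil =>
    obtain ⟨n, rfl⟩ : ∃ m, n = m + 1 := ⟨n - 1, by simp at hC; omega⟩
    have h1 := val_lt pot L hb n R'
    have h2 := Nat.mul_le_mul_right ((L + 1) ^ n) (Nat.succ_le_of_lt h)
    simp only [List.nil_append, val]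
    rw [Nat.succ_mul] at h2
    omega
  | cons c C ih =>
    obtain ⟨n, rfl⟩ : ∃ m, n = m + 1 := ⟨n - 1, by simp at hC; omega⟩
    have := ih n (by simpa using hC)
    simp only [List.cons_append, val]
    omega

theorem gameL {ν : Type} (Good : List ν → Prop) (pot : ν → ℕ) (L : ℕ) (hb : ∀ x, pot x ≤ L)
    (hpre : ∀ l A, Good (l ++ A) → Good l)
    (hlong : ∀ m, ∃ l, Good l ∧ m ≤ l.length) (E : List ν → Prop)
    (hE : ∀ l A, Good (l ++ A) → E l →
      ∃ C u B x A₁, l = C ++ u :: B ∧ Good (C ++ x :: (A₁ ++ A)) ∧ pot x < pot u) (n : ℕ) :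
    ∃ l, Good l ∧ l.length = n ∧ ¬ E l := by
  classical
  let Arb : ℕ → Prop := fun v => ∀ m, ∃ l, Good l ∧ m ≤ l.length ∧ val pot L n l ≤ v
  have hex : ∃ v, Arb v := ⟨(L + 1) ^ n, fun m => by
    obtain ⟨l, h₁, h₂⟩ := hlong m
    exact ⟨l, h₁, h₂, (val_lt pot L hb n l).le⟩⟩
  by_contra hcon
  push Not at hcon
  have key : ∀ m, ∃ l, Good l ∧ m ≤ l.length ∧ val pot L n l < Nat.find hex := by
    intro m
    obtain ⟨l, h₁, h₂, h₃⟩ := Nat.find_spec hex (m + n)
    have hl : l = l.take n ++ l.drop n := (List.take_append_drop n l).symm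
    have hlen : (l.take n).length = n := by simp; omega
    have hg : Good (l.take n ++ l.drop n) := hl ▸ h₁
    obtain ⟨C, u, B, x, A₁, e₁, g₁, hp⟩ := hE _ _ hg (hcon _ (hpre _ _ hg) hlen)
    refine ⟨_, g₁, by simp; omega, lt_of_lt_of_le ?_ h₃⟩
    have hC : C.length < n := by rw [← hlen, e₁]; simp
    conv_rhs => rw [hl, e₁, List.append_assoc, List.cons_append]
    exact val_improve pot L hb n C _ _ x u hC hp
  obtain ⟨l, -, -, h0⟩ := key 0
  refine Nat.find_min hex (m := Nat.find hex - 1) (by omega) fun m => ?_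
  obtain ⟨l, h₁, h₂, h₃⟩ := key m
  exact ⟨l, h₁, h₂, by omega⟩

theorem gameR {ν : Type} (Good : List ν → Prop) (pot : ν → ℕ) (L : ℕ) (hb : ∀ x, pot x ≤ L)
    (hsuf : ∀ l A, Good (A ++ l) → Good l)
    (hlong : ∀ m, ∃ l, Good l ∧ m ≤ l.length) (E : List ν → Prop)
    (hE : ∀ l A, Good (A ++ l) → E l →
      ∃ C u B x A₁, l = B ++ u :: C ∧ Good (A ++ A₁ ++ x :: C) ∧ pot x < pot u) (n : ℕ) :
    ∃ l, Good l ∧ l.length = n ∧ ¬ E l := by
  obtain ⟨l, h₁, h₂, h₃⟩ := gameL (fun l => Good l.reverse) pot L hb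
    (fun l A h => hsuf _ A.reverse (by simpa using h))
    (fun m => by
      obtain ⟨l, h₁, h₂⟩ := hlong m
      exact ⟨l.reverse, by simpa using h₁, by simpa using h₂⟩)
    (fun l => E l.reverse)
    (fun l A h hl => by
      obtain ⟨C, u, B, x, A₁, e₁, g₁, hp⟩ := hE l.reverse A.reverse (by simpa using h) hl
      refine ⟨C.reverse, u, B.reverse, x, A₁.reverse, ?_, by simpa using g₁, hp⟩
      rw [← List.reverse_reverse l, e₁]
      simp) n
  exact ⟨l.reverse, h₁, by simpa using h₂, h₃⟩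

/-- Link-free chains of intervals. -/
inductive Ch (r : ℕ → ℕ → Prop) : ℕ → Set ℕ → ℕ → Prop
  | zero {K : Set ℕ} {i : ℕ} : Ch r 0 K i
  | succ {m : ℕ} {K : Set ℕ} {i j : ℕ} : i ≤ j → (i = j ∨ r i j) → (∀ k ∈ K, ¬ r k i) →
      Ch r m (insert j K) (j + 1) → Ch r (m + 1) K i

theorem dfs (r : ℕ → ℕ → Prop) (hr : ∀ a b c, r a b → r b c → r a c)
    (hN : ∀ G, ∃ N, ∀ f : ℕ → ℕ,
      ¬ ∀ k < N, f k < f (k + 1) ∧ f (k + 1) ≤ f k + G ∧ r (f k) (f (k + 1))) (m : ℕ) :
    ∃ H, ∀ K i, (∀ t ≤ H, ∀ k ∈ K, ¬ r k (i + t)) → Ch r m K i := by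
  classical
  induction m with
  | zero => exact ⟨0, fun _ _ _ => Ch.zero⟩
  | succ m ih =>
    obtain ⟨H, hH⟩ := ih
    obtain ⟨N, hN⟩ := hN (H + 1)
    refine ⟨N * (H + 1) + (H + 1), fun K i hK => ?_⟩
    by_contra hcon
    have hstep : ∀ j, i ≤ j → j ≤ i + N * (H + 1) → (i = j ∨ r i j) →
        ∃ t, t ≤ H ∧ r j (j + 1 + t) := by
      intro j h₁ h₂ h₃
      by_contra hno
      push Not at hno
      refine hcon (Ch.succ h₁ h₃ (by simpa using hK 0 (by omega)) (hH _ _ ?_))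
      intro t ht k hk
      rcases hk with rfl | hk
      · exact hno t ht
      · have := hK (j + 1 + t - i) (by omega) k hk
        rwa [show i + (j + 1 + t - i) = j + 1 + t by omega] at this
    let g : ℕ → ℕ := fun j =>
      if h : ∃ t, t ≤ H ∧ r j (j + 1 + t) then j + 1 + h.choose else j + 1
    have hg : ∀ j, (∃ t, t ≤ H ∧ r j (j + 1 + t)) → j < g j ∧ g j ≤ j + (H + 1) ∧ r j (g j) := by
      intro j h
      have := h.choose_spec
      simp only [g, dif_pos h]
      exact ⟨by omega, by omega, this.2⟩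
    have hinv : ∀ k ≤ N, i ≤ g^[k] i ∧ g^[k] i ≤ i + k * (H + 1) ∧ (i = g^[k] i ∨ r i (g^[k] i)) := by
      intro k hk
      induction k with
      | zero => simp
      | succ k ih =>
        obtain ⟨h₁, h₂, h₃⟩ := ih (by omega)
        have h4 : k * (H + 1) ≤ N * (H + 1) := Nat.mul_le_mul_right _ (by omega)
        obtain ⟨a, b, c⟩ := hg _ (hstep _ h₁ (by omega) h₃)
        rw [Function.iterate_succ_apply']
        refine ⟨by omega, by rw [Nat.succ_mul]; omega, Or.inr ?_⟩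
        rcases h₃ with h₃ | h₃
        · rw [← h₃] at c ⊢; exact c
        · exact hr _ _ _ h₃ c
    refine hN (fun k => g^[k] i) fun k hk => ?_
    obtain ⟨h₁, h₂, h₃⟩ := hinv k hk.le
    have h4 : k * (H + 1) ≤ N * (H + 1) := Nat.mul_le_mul_right _ (by omega)
    simp only [Function.iterate_succ_apply']
    exact hg _ (hstep _ h₁ (by omega) h₃)

theorem ulim {ι β : Type} [Finite β] (U : Ultrafilter ι) (xs : ι → ℕ → β) :
    ∃ y : ℕ → β, ∀ m, {j | ∀ i < m, y i = xs j i} ∈ U := by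
  have h : ∀ i, ∃ b, {j | b = xs j i} ∈ U := by
    intro i
    have : (⋃ b ∈ (Set.univ : Set β), {j | b = xs j i}) ∈ U := by
      refine Filter.mem_of_superset Filter.univ_mem fun j _ => ?_
      simp
    obtain ⟨b, -, hb⟩ := (Ultrafilter.finite_biUnion_mem_iff Set.finite_univ).mp this
    exact ⟨b, hb⟩
  choose y hy using h
  refine ⟨y, fun m => ?_⟩
  have : (⋂ i ∈ Finset.range m, {j | y i = xs j i}) ∈ (U : Filter ι) :=
    (Filter.biInter_finset_mem _).mpr fun i _ => hy i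
  refine Filter.mem_of_superset this fun j hj => ?_
  simpa using hj

theorem seqlim {β : Type} [Finite β] (xs : ℕ → ℕ → β) :
    ∃ y : ℕ → β, ∀ m N, ∃ j, N ≤ j ∧ ∀ i < m, y i = xs j i := by
  obtain ⟨y, hy⟩ := ulim (Filter.hyperfilter ℕ) xs
  refine ⟨y, fun m N => ?_⟩
  have h1 : {j | N ≤ j} ∈ Filter.hyperfilter ℕ :=
    Nat.hyperfilter_le_atTop (Filter.mem_atTop N)
  obtain ⟨j, h₁, h₂⟩ := Ultrafilter.nonempty_of_mem (Filter.inter_mem h1 (hy m))
  exact ⟨j, h₁, h₂⟩

/-- Every factor of `y` is a factor of `x`. -/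
def Sub {β : Type} (y x : ℕ → β) : Prop := ∀ m, ∃ k, ∀ i < m, y i = x (k + i)

theorem Sub.refl {β : Type} (x : ℕ → β) : Sub x x := fun _ => ⟨0, by simp⟩

theorem Sub.trans {β : Type} {x y z : ℕ → β} (h₁ : Sub x y) (h₂ : Sub y z) : Sub x z := by
  intro m
  obtain ⟨k, hk⟩ := h₁ m
  obtain ⟨k', hk'⟩ := h₂ (k + m)
  exact ⟨k' + k, fun i hi => by rw [hk i hi, hk' _ (by omega), add_assoc]⟩

/-- Uniform recurrence. -/
def UR {β : Type} (x : ℕ → β) : Prop :=
  ∀ n m, ∃ G, ∀ k, ∃ j, k ≤ j ∧ j ≤ k + G ∧ ∀ i < m, x (j + i) = x (n + i)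

theorem exists_UR {β : Type} [Finite β] (x : ℕ → β) : ∃ y, Sub y x ∧ UR y := by
  have hz := exists_maximal_of_chains_bounded (α := {y : ℕ → β // Sub y x})
    (r := fun a b => Sub b.1 a.1) ?_ (fun h₁ h₂ => h₂.trans h₁)
  · obtain ⟨⟨y, hy⟩, hmin⟩ := hz
    refine ⟨y, hy, fun n m => ?_⟩
    by_contra hcon
    push Not at hcon
    choose k hk using hcon
    obtain ⟨y', hy'⟩ := seqlim (fun G i => y (k G + i))
    have h1 : Sub y' y := fun m => by
      obtain ⟨j, -, hj⟩ := hy' m 0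
      exact ⟨k j, hj⟩
    obtain ⟨j, hj⟩ := hmin ⟨y', h1.trans hy⟩ h1 (n + m)
    obtain ⟨G, hG, hG'⟩ := hy' (j + n + m) (j + n)
    obtain ⟨i, hi, hne⟩ := hk G (k G + (j + n)) (by omega) (by omega)
    apply hne
    have a := hj (n + i) (by omega)
    have b := hG' (j + (n + i)) (by omega)
    simp only at a b
    rw [a, b]
    congr 1
    omega
  · intro c hc
    rcases c.eq_empty_or_nonempty with rfl | hne
    · exact ⟨⟨x, Sub.refl x⟩, by simp⟩
    have : Nonempty c := hne.to_subtype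
    let F : Filter c := ⨅ s : c, Filter.principal {t : c | Sub t.1.1 s.1.1}
    have hF : F.NeBot := by
      refine Filter.iInf_neBot_of_directed' ?_ fun s => ?_
      · intro s t
        have hst : Sub t.1.1 s.1.1 ∨ Sub s.1.1 t.1.1 := by
          by_cases h : s.1 = t.1
          · left; rw [h]; exact Sub.refl _
          · exact hc s.2 t.2 h
        rcases hst with h | h
        · exact ⟨t, Filter.principal_mono.mpr fun a ha => Sub.trans ha h, le_rfl⟩
        · exact ⟨s, le_rfl, Filter.principal_mono.mpr fun a ha => Sub.trans ha h⟩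
      · exact Filter.principal_neBot_iff.mpr ⟨s, Sub.refl _⟩
    obtain ⟨y, hy⟩ := ulim (Ultrafilter.of F) (fun t : c => t.1.1)
    have key : ∀ s : c, Sub y s.1.1 := by
      intro s m
      have h1 : {t : c | Sub t.1.1 s.1.1} ∈ Ultrafilter.of F :=
        Ultrafilter.of_le F (Filter.mem_iInf_of_mem s (Filter.mem_principal_self _))
      obtain ⟨t, h₁, h₂⟩ := Ultrafilter.nonempty_of_mem (Filter.inter_mem h1 (hy m))
      obtain ⟨k, hk⟩ := h₁ m
      exact ⟨k, fun i hi => (h₂ i hi).trans (hk i hi)⟩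
    obtain ⟨s⟩ := this
    exact ⟨⟨y, (key s).trans s.1.2⟩, fun a ha => key ⟨a, ha⟩⟩

end Pool.Agent.MP_042a8e_lc
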