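import Mathlib.Algebra.Order.Archimedean.Basic
import Mathlib.Data.Set.Finite.List
import Pool.Agent.MP_042a8e_lc.Defs
import Pool.Agent.MP_042a8e_lc.Game

-- ======== part 0: formerly Pool.Agent.MP_042a8e_lc.Basic
section MrgPart0

namespace Pool.Agent.MP_042a8e_lc

variable {α : Type} {P : List (α × List α)}

theorem Der.refl' (u : List α) : Der P u u := Relation.ReflTransGen.refl

theorem Der.trans' {u v w : List α} (h₁ : Der P u v) (h₂ : Der P v w) : Der P u w :=
  Relation.ReflTransGen.trans h₁ h₂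

theorem Step.ctx {x y : List α} (h : Step P x y) (l r : List α) :
    Step P (l ++ x ++ r) (l ++ y ++ r) := by
  obtain ⟨x₁, x₂, a, v, hp, rfl, rfl⟩ := h
  exact ⟨l ++ x₁, x₂ ++ r, a, v, hp, by simp, by simp⟩

theorem Der.ctx {x y : List α} (h : Der P x y) (l r : List α) :
    Der P (l ++ x ++ r) (l ++ y ++ r) := by
  induction h with
  | refl => exact Der.refl' _
  | tail _ hs ih => exact Relation.ReflTransGen.tail ih (hs.ctx l r)

theorem Der.append {u u' v v' : List α} (h₁ : Der P u u') (h₂ : Der P v v') :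
    Der P (u ++ v) (u' ++ v') := by
  have a := h₁.ctx [] v
  have b := h₂.ctx u' []
  simp only [List.nil_append, List.append_nil] at a b
  exact a.trans' b

theorem Der.cons {a : α} {β v v' : List α} (h₁ : Der P [a] β) (h₂ : Der P v v') :
    Der P (a :: v) (β ++ v') := Der.append h₁ h₂

theorem Der.cons' (a : α) {v v' : List α} (h₂ : Der P v v') :
    Der P (a :: v) (a :: v') := Der.append (Der.refl' [a]) h₂

theorem Der.rule {a : α} {v : List α} (h : (a, v) ∈ P) : Der P [a] v :=
  Relation.ReflTransGen.single ⟨[], [], a, v, h, by simp, by simp⟩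

/-- Tree form of the derivation relation. -/
inductive D (P : List (α × List α)) : List α → List α → Prop
  | nil : D P [] []
  | keep {a : α} {u y : List α} : D P u y → D P (a :: u) (a :: y)
  | rule {a : α} {v β u y : List α} : (a, v) ∈ P → D P v β → D P u y → D P (a :: u) (β ++ y)

theorem D.der {u y : List α} (h : D P u y) : Der P u y := by
  induction h with
  | nil => exact Der.refl' _
  | keep _ ih => exact ih.cons' _
  | rule hp _ _ ih₁ ih₂ => exact Der.cons ((Der.rule hp).trans' ih₁) ih₂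

theorem D.refl (u : List α) : D P u u := by
  induction u with
  | nil => exact D.nil
  | cons a u ih => exact D.keep ih

theorem D.append {u u' v v' : List α} (h₁ : D P u u') (h₂ : D P v v') :
    D P (u ++ v) (u' ++ v') := by
  induction h₁ with
  | nil => simpa using h₂
  | keep _ ih => exact D.keep ih
  | rule hp h _ _ ih₂ => rw [List.append_assoc]; exact D.rule hp h ih₂

theorem D.split {u v y : List α} (h : D P (u ++ v) y) :
    ∃ y₁ y₂, y = y₁ ++ y₂ ∧ D P u y₁ ∧ D P v y₂ := by
  induction u generalizing y with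
  | nil => exact ⟨[], y, rfl, D.nil, h⟩
  | cons a u ih =>
    cases h with
    | keep h =>
      obtain ⟨y₁, y₂, rfl, h₁, h₂⟩ := ih h
      exact ⟨a :: y₁, y₂, rfl, D.keep h₁, h₂⟩
    | rule hp hv h =>
      obtain ⟨y₁, y₂, rfl, h₁, h₂⟩ := ih h
      exact ⟨_ ++ y₁, y₂, by simp, D.rule hp hv h₁, h₂⟩

theorem Der.d {u y : List α} (h : Der P u y) : D P u y := by
  induction h using Relation.ReflTransGen.head_induction_on with
  | refl => exact D.refl _
  | head hs _ ih =>
    obtain ⟨x₁, x₂, a, v, hp, rfl, rfl⟩ := hs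
    obtain ⟨y₁, y₃, rfl, h₁, h₃⟩ := ih.split
    obtain ⟨y₁, y₂, rfl, h₁, h₂⟩ := h₁.split
    have := h₁.append (D.rule hp h₂ h₃)
    simpa using this

theorem Der.split {u v y : List α} (h : Der P (u ++ v) y) :
    ∃ y₁ y₂, y = y₁ ++ y₂ ∧ Der P u y₁ ∧ Der P v y₂ := by
  obtain ⟨y₁, y₂, h, h₁, h₂⟩ := h.d.split
  exact ⟨y₁, y₂, h, h₁.der, h₂.der⟩

theorem Der.split_cons {a : α} {v y : List α} (h : Der P (a :: v) y) :
    ∃ y₁ y₂, y = y₁ ++ y₂ ∧ Der P [a] y₁ ∧ Der P v y₂ :=
  Der.split (u := [a]) h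

/-- Propagating schemes. -/
def Prop' (P : List (α × List α)) : Prop := ∀ p ∈ P, p.2 ≠ []

theorem Der.length_le (hP : Prop' P) {u y : List α} (h : Der P u y) : u.length ≤ y.length := by
  induction h with
  | refl => exact le_rfl
  | tail _ hs ih =>
    obtain ⟨x₁, x₂, a, v, hp, rfl, rfl⟩ := hs
    have : 0 < v.length := List.length_pos_iff.mpr (hP _ hp)
    simp only [List.length_append, List.length_singleton] at ih ⊢
    omega

theorem Der.nil_eq {y : List α} (h : Der P [] y) : y = [] := by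
  cases h.d; rfl

/-- The language MIXED. -/
def Mixed (P : List (α × List α)) (f : List α) : Prop :=
  ∃ a s, s ≠ [] ∧ Der P [a] f ∧ (f = a :: s ∨ f = s ++ [a])

/-- Words with no factor in MIXED. -/
def Free (P : List (α × List α)) (w : List α) : Prop := ∀ f, f <:+: w → ¬ Mixed P f

theorem Free.sub_word {u w : List α} (h : Free P w) (hu : u <:+: w) : Free P u :=
  fun f hf => h f (hf.trans hu)

/-- The factor of `z` on the interval from `p` (included) to `e` (excluded). -/
def seg (z : ℕ → α) (p e : ℕ) : List α := (List.range' p (e - p)).map z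

@[simp] theorem seg_length (z : ℕ → α) (p e : ℕ) : (seg z p e).length = e - p := by simp [seg]

@[simp] theorem seg_self (z : ℕ → α) (p : ℕ) : seg z p p = [] := by simp [seg]

theorem seg_append (z : ℕ → α) {p q e : ℕ} (h₁ : p ≤ q) (h₂ : q ≤ e) :
    seg z p q ++ seg z q e = seg z p e := by
  obtain ⟨a, rfl⟩ := Nat.exists_eq_add_of_le h₁
  obtain ⟨b, rfl⟩ := Nat.exists_eq_add_of_le h₂
  have h : p + a + b - p = a + b := by omega
  simp only [seg, Nat.add_sub_cancel_left, h, ← List.map_append]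
  rw [List.range'_append_1]

theorem seg_succ (z : ℕ → α) (p : ℕ) : seg z p (p + 1) = [z p] := by simp [seg]

theorem seg_cons (z : ℕ → α) {p e : ℕ} (h : p < e) : seg z p e = z p :: seg z (p + 1) e := by
  rw [← seg_append z (Nat.le_succ p) h, seg_succ]; rfl

theorem seg_concat (z : ℕ → α) {p e : ℕ} (h : p ≤ e) : seg z p (e + 1) = seg z p e ++ [z e] := by
  rw [← seg_append z h (Nat.le_succ e), seg_succ]

theorem seg_congr {z z' : ℕ → α} {p e k : ℕ} (h : ∀ i < e, z i = z' (k + i)) :
    seg z p e = seg z' (k + p) (k + e) := by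
  apply List.ext_getElem
  · simp only [seg_length]; omega
  · intro i h₁ h₂
    simp only [seg_length] at h₁
    simp only [seg, List.getElem_map, List.getElem_range']
    rw [h _ (by omega)]
    congr 1
    omega

theorem seg_congr' {z z' : ℕ → α} {p p' n : ℕ} (h : ∀ i < n, z (p + i) = z' (p' + i)) :
    seg z p (p + n) = seg z' p' (p' + n) := by
  apply List.ext_getElem
  · simp
  · intro i h₁ h₂
    simp only [seg_length] at h₁
    simp only [seg, List.getElem_map, List.getElem_range', one_mul]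
    exact h _ (by omega)

theorem seg_infix (z : ℕ → α) {p p' e' e : ℕ} (h₁ : p ≤ p') (h₂ : p' ≤ e') (h₃ : e' ≤ e) :
    seg z p' e' <:+: seg z p e :=
  ⟨seg z p p', seg z e' e, by rw [seg_append z h₁ h₂, seg_append z (h₁.trans h₂) h₃]⟩

theorem infix_seg {z : ℕ → α} {p e : ℕ} {f : List α} (h : f <:+: seg z p e) :
    ∃ q, p ≤ q ∧ f = seg z q (q + f.length) := by
  obtain ⟨s, t, h⟩ := h
  refine ⟨p + s.length, by omega, ?_⟩
  apply List.ext_getElem
  · simp
  · intro i h₁ h₂
    have h3 : s.length + i < (s ++ f ++ t).length := by simp; omega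
    have h4 : (s ++ f ++ t)[s.length + i] = f[i] := by
      simp [List.getElem_append_left, List.getElem_append_right, h₁]
    rw [← h4]
    simp only [h, seg, List.getElem_map, List.getElem_range', one_mul]
    congr 1
    omega

theorem infix_append_cons {β : Type} {d A C : List β} {x : β} (h : d <:+: A ++ x :: C) :
    x ∈ d ∨ d <:+: A ∨ d <:+: C := by
  induction A generalizing d with
  | nil =>
    rw [List.nil_append, List.infix_cons_iff] at h
    rcases h with h | h
    · cases d with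
      | nil => exact Or.inr (Or.inr List.nil_infix)
      | cons y d => rw [List.cons_prefix_cons] at h; exact Or.inl (by simp [h.1])
    · exact Or.inr (Or.inr h)
  | cons a A ih =>
    rw [List.cons_append, List.infix_cons_iff] at h
    rcases h with h | h
    · by_cases hl : d.length ≤ (a :: A).length
      · refine Or.inr (Or.inl (List.IsPrefix.isInfix ?_))
        exact List.prefix_of_prefix_length_le h (by simp) hl
      · left
        have h2 : (a :: A) ++ [x] <+: d :=
          List.prefix_of_prefix_length_le (l₃ := a :: (A ++ x :: C)) (by simp) h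
            (by simp at hl ⊢; omega)
        exact h2.subset (by simp)
    · rcases ih h with h | h | h
      · exact Or.inl h
      · exact Or.inr (Or.inl (h.trans (List.infix_cons (List.infix_refl _))))
      · exact Or.inr (Or.inr h)

end Pool.Agent.MP_042a8e_lc

end MrgPart0

-- ======== part 1: formerly Pool.Agent.MP_042a8e_lc.Minimal
section MrgPart1

namespace Pool.Agent.MP_042a8e_lc

variable {α : Type} {P : List (α × List α)}

/-- Derivations that expand one of the first `i` letters to at least two letters. -/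
inductive Exp (P : List (α × List α)) : ℕ → List α → List α → Prop
  | big {i : ℕ} {a : α} {u β u' : List α} : Der P [a] β → 2 ≤ β.length → Der P u u' →
      Exp P (i + 1) (a :: u) (β ++ u')
  | small {i : ℕ} {a b : α} {u u' : List α} : Der P [a] [b] → Exp P i u u' →
      Exp P (i + 1) (a :: u) (b :: u')

theorem Exp.der {i : ℕ} {u u' : List α} (h : Exp P i u u') : Der P u u' := by
  induction h with
  | big h₁ _ h₂ => exact h₁.cons h₂
  | small h₁ _ ih => exact h₁.cons ih

/-- The first letter expands to at least `k` letters. -/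
def Hd (P : List (α × List α)) (k : ℕ) (w w' : List α) : Prop :=
  ∃ a u β u', w = a :: u ∧ w' = β ++ u' ∧ Der P [a] β ∧ Der P u u' ∧ k ≤ β.length

theorem Exp.hd {i : ℕ} {u u' : List α} (h : Exp P (i + 1) u u') : Hd P 1 u u' := by
  cases h with
  | big h₁ h h₂ => exact ⟨_, _, _, _, rfl, rfl, h₁, h₂, by omega⟩
  | small h₁ h₂ => exact ⟨_, _, [_], _, rfl, rfl, h₁, h₂.der, by simp⟩

theorem Hd.trans (hP : Prop' P) {k : ℕ} (hk : 1 ≤ k) {w w' w'' : List α} (h₁ : Hd P k w w')
    (h₂ : Hd P 1 w' w'') : Hd P k w w'' := by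
  obtain ⟨a, u, β, u', rfl, rfl, d₁, d₂, hl⟩ := h₁
  obtain ⟨b, v, γ, v', e₁, rfl, d₃, d₄, hl'⟩ := h₂
  cases β with
  | nil => simp at hl; omega
  | cons b' β =>
    simp only [List.cons_append, List.cons.injEq] at e₁
    obtain ⟨rfl, rfl⟩ := e₁
    obtain ⟨y₁, y₂, rfl, d₅, d₆⟩ := d₄.split
    refine ⟨a, u, γ ++ y₁, y₂, rfl, by simp, d₁.trans' (d₃.cons d₅), d₂.trans' d₆, ?_⟩
    have := d₅.length_le hP
    simp at hl ⊢
    omega

theorem noExp [Finite α] (hP : Prop' P) (i : ℕ) (w : ℕ → List α) (hf : ∀ t, Free P (w t))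
    (he : ∀ t, Exp P i (w t) (w (t + 1))) : False := by
  induction i generalizing w with
  | zero => cases he 0
  | succ i ih =>
    by_cases hinf : {t | Hd P 2 (w t) (w (t + 1))}.Infinite
    · have hfin : (Set.univ : Set (Option α)).Finite := Set.finite_univ
      obtain ⟨t, ht, t', ht', hlt, heq⟩ := hinf.exists_lt_map_eq_of_mapsTo
        (f := fun t => (w t).head?) (Set.mapsTo_univ _ _) hfin
      have key : ∀ s, Hd P 2 (w t) (w (t + 1 + s)) := by
        intro s
        induction s with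
        | zero => exact ht
        | succ s ih => exact ih.trans hP (by omega) (he (t + 1 + s)).hd
      have h1 := key (t' - (t + 1))
      rw [show t + 1 + (t' - (t + 1)) = t' by omega] at h1
      obtain ⟨a, u, β, u', e₁, e₂, d₁, -, hl⟩ := h1
      rcases β with _ | ⟨b, _ | ⟨b', β⟩⟩
      · simp at hl
      · simp at hl
      · simp only [e₁, e₂, List.head?_cons, List.cons_append, Option.some.injEq] at heq
        subst heq
        exact hf t' (a :: b' :: β) ⟨[], u', by simp [e₂]⟩ ⟨a, b' :: β, by simp, d₁, Or.inl rfl⟩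
    · obtain ⟨t₀, ht₀⟩ := (Set.not_infinite.mp hinf).bddAbove
      refine ih (fun t => (w (t₀ + 1 + t)).tail)
        (fun t => (hf _).sub_word (List.tail_suffix _).isInfix) fun t => ?_
      have h1 := he (t₀ + 1 + t)
      have h2 : ¬ Hd P 2 (w (t₀ + 1 + t)) (w (t₀ + 1 + t + 1)) := fun h => by
        have := ht₀ h
        omega
      change Exp P i (w (t₀ + 1 + t)).tail (w (t₀ + 1 + t + 1)).tail
      generalize w (t₀ + 1 + t) = x at h1 h2
      generalize w (t₀ + 1 + t + 1) = y at h1 h2
      cases h1 with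
      | big h₁ h h₂ => exact absurd ⟨_, _, _, _, rfl, rfl, h₁, h₂, h⟩ h2
      | small h₁ h₂ => exact h₂

theorem exp_of_cut (hP : Prop' P) (i : ℕ) (w : List α) (c : List (α × List α))
    (hc : ∀ p ∈ c, Der P [p.1] p.2) (hw : Der P w (c.map Prod.fst)) (hi : i ≤ w.length)
    (hbig : ∃ p ∈ c.take i, 2 ≤ p.2.length) : Exp P i w (c.flatMap Prod.snd) := by
  have hflat : ∀ d : List (α × List α), (∀ p ∈ d, Der P [p.1] p.2) →
      Der P (d.map Prod.fst) (d.flatMap Prod.snd) := by
    intro d hd
    induction d with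
    | nil => exact Der.refl' _
    | cons p d ih =>
      exact (hd p (by simp)).cons (ih fun q hq => hd q (by simp [hq]))
  induction i generalizing w c with
  | zero => simp at hbig
  | succ i ih =>
    cases w with
    | nil => simp at hi
    | cons a w =>
      obtain ⟨y₁, y₂, e, d₁, d₂⟩ := hw.split_cons
      obtain ⟨c₁, c₂, rfl, rfl, rfl⟩ := List.map_eq_append_iff.mp e
      have f₁ := hflat c₁ fun p hp => hc p (by simp [hp])
      have f₂ := hflat c₂ fun p hp => hc p (by simp [hp])
      rw [List.flatMap_append]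
      by_cases hl : 2 ≤ (c₁.flatMap Prod.snd).length
      · exact Exp.big (d₁.trans' f₁) hl (d₂.trans' f₂)
      · have l₁ := d₁.length_le hP
        have l₂ := f₁.length_le hP
        rcases c₁ with _ | ⟨p, _ | ⟨q, c₁⟩⟩
        · simp at l₁
        · have hp : p.2.length = 1 := by simp at l₂ hl; omega
          obtain ⟨b, hb⟩ := List.length_eq_one_iff.mp hp
          have e₁ : [p].flatMap Prod.snd = [b] := by simp [hb]
          rw [e₁] at f₁ ⊢
          refine Exp.small (d₁.trans' f₁) (ih w c₂ (fun q hq => hc q (by simp [hq])) d₂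
            (by simpa using hi) ?_)
          obtain ⟨q, hq, hq2⟩ := hbig
          simp only [List.singleton_append, List.take_succ_cons, List.mem_cons] at hq
          rcases hq with rfl | hq
          · omega
          · exact ⟨q, hq, hq2⟩
        · exfalso
          simp only [List.map_cons, List.length_cons] at l₂
          omega

/-- Infinite factorial languages that avoid MIXED. -/
structure Lang (P : List (α × List α)) (Λ : Set (List α)) : Prop where
  fact : ∀ u w, u <:+: w → w ∈ Λ → u ∈ Λ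
  inf : ∀ n, ∃ w ∈ Λ, w.length = n
  free : ∀ w ∈ Λ, Free P w

/-- Every word of the first language derives a word of the second. -/
def Le (P : List (α × List α)) (Λ' Λ : Set (List α)) : Prop := ∀ w' ∈ Λ', ∃ w ∈ Λ, Der P w' w

theorem Le.refl (Λ : Set (List α)) : Le P Λ Λ := fun w hw => ⟨w, hw, Der.refl' w⟩

theorem Le.trans {A B C : Set (List α)} (h₁ : Le P A B) (h₂ : Le P B C) : Le P A C := by
  intro w hw
  obtain ⟨w', hw', d⟩ := h₁ w hw
  obtain ⟨w'', hw'', d'⟩ := h₂ w' hw'
  exact ⟨w'', hw'', d.trans' d'⟩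

theorem exists_minimal_lang [Finite α] (h : ∃ Λ, Lang P Λ) :
    ∃ Λ, Lang P Λ ∧ ∀ Λ', Lang P Λ' → Le P Λ' Λ → Le P Λ Λ' := by
  have hz := exists_maximal_of_chains_bounded (α := {Λ : Set (List α) // Lang P Λ})
    (r := fun a b => Le P b.1 a.1) ?_ (fun h₁ h₂ => h₂.trans h₁)
  · obtain ⟨⟨Λ, hΛ⟩, hmin⟩ := hz
    exact ⟨Λ, hΛ, fun Λ' h₁ h₂ => hmin ⟨Λ', h₁⟩ h₂⟩
  · intro c hc
    rcases c.eq_empty_or_nonempty with rfl | ⟨Λ₀, h₀⟩
    · obtain ⟨Λ, hΛ⟩ := h
      exact ⟨⟨Λ, hΛ⟩, by simp⟩
    have htot : ∀ s ∈ c, ∀ t ∈ c, Le P t.1 s.1 ∨ Le P s.1 t.1 := by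
      intro s hs t ht
      by_cases h : s = t
      · left; rw [h]; exact Le.refl _
      · exact hc hs ht h
    refine ⟨⟨{w | ∀ s ∈ c, ∃ t ∈ c, Le P t.1 s.1 ∧ w ∈ t.1}, ?_, ?_, ?_⟩, ?_⟩
    · intro u w huw hw s hs
      obtain ⟨t, ht, h₁, h₂⟩ := hw s hs
      exact ⟨t, ht, h₁, t.2.fact _ _ huw h₂⟩
    · intro n
      by_contra hcon
      push Not at hcon
      have hlow : ∀ F : Set (List α), F.Finite → (∀ w ∈ F, w.length = n) →
          ∃ s ∈ c, ∀ t ∈ c, Le P t.1 s.1 → ∀ w ∈ F, w ∉ t.1 := by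
        intro F hF
        induction F, hF using Set.Finite.induction_on with
        | empty => exact fun _ => ⟨Λ₀, h₀, by simp⟩
        | @insert w F _ _ ih =>
          intro hl
          obtain ⟨s, hs, hs'⟩ := ih fun v hv => hl v (by simp [hv])
          have hw : ¬ ∀ s ∈ c, ∃ t ∈ c, Le P t.1 s.1 ∧ w ∈ t.1 := fun h =>
            hcon w h (hl w (by simp))
          push Not at hw
          obtain ⟨s', hs₁, hs₂⟩ := hw
          rcases htot s hs s' hs₁ with h | h
          · refine ⟨s', hs₁, fun t ht hts v hv => ?_⟩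
            rcases hv with rfl | hv
            · exact hs₂ t ht hts
            · exact hs' t ht (hts.trans h) v hv
          · refine ⟨s, hs, fun t ht hts v hv => ?_⟩
            rcases hv with rfl | hv
            · exact hs₂ t ht (hts.trans h)
            · exact hs' t ht hts v hv
      obtain ⟨s, hs, hs'⟩ := hlow _ (List.finite_length_eq α n) fun w hw => hw
      obtain ⟨w, hw, hl⟩ := s.2.inf n
      exact hs' s hs (Le.refl _) w hl hw
    · intro w hw
      obtain ⟨t, -, -, h₂⟩ := hw Λ₀ h₀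
      exact t.2.free w h₂
    · intro s hs w hw
      obtain ⟨t, -, h₁, h₂⟩ := hw s hs
      exact h₁ w h₂

/-- A contraction with nontrivial letters at bounded distance. -/
def Cut (P : List (α × List α)) (L : ℕ) (c : List (α × List α)) : Prop :=
  (∀ p ∈ c, Der P [p.1] p.2) ∧ ∀ d, d <:+: c → L < d.length → ∃ p ∈ d, 2 ≤ p.2.length

theorem Cut.sub_word {L : ℕ} {c d : List (α × List α)} (h : Cut P L c) (hd : d <:+: c) :
    Cut P L d :=
  ⟨fun p hp => h.1 p (hd.subset hp), fun e he => h.2 e (he.trans hd)⟩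

/-- The key property of a minimal language. -/
def Key (P : List (α × List α)) (Λ : Set (List α)) : Prop :=
  ∀ L, ∃ N, ∀ c, Cut P L c → c.flatMap Prod.snd ∈ Λ → N ≤ c.length → ¬ Free P (c.map Prod.fst)

theorem exists_key [Finite α] (hP : Prop' P) (h : ∃ Λ, Lang P Λ) :
    ∃ Λ, Lang P Λ ∧ Key P Λ := by
  obtain ⟨Λ, hΛ, hmin⟩ := exists_minimal_lang h
  refine ⟨Λ, hΛ, fun L => ?_⟩
  by_contra hcon
  push Not at hcon
  have hsub : ∀ c d : List (α × List α), d <:+: c → d.flatMap Prod.snd <:+: c.flatMap Prod.snd := by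
    rintro c d ⟨s, t, rfl⟩
    exact ⟨s.flatMap Prod.snd, t.flatMap Prod.snd, by simp⟩
  let Λ' : Set (List α) :=
    {u | Free P u ∧ ∃ c, Cut P L c ∧ c.map Prod.fst = u ∧ c.flatMap Prod.snd ∈ Λ}
  have hΛ' : Lang P Λ' := by
    refine ⟨?_, ?_, fun w hw => hw.1⟩
    · rintro u w huw ⟨hf, c, hc, rfl, hm⟩
      obtain ⟨d, hd, rfl⟩ := List.infix_map_iff.mp huw
      exact ⟨hf.sub_word huw, d, hc.sub_word hd, rfl, hΛ.fact _ _ (hsub _ _ hd) hm⟩
    · intro n
      obtain ⟨c, hc, hm, hl, hf⟩ := hcon n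
      have hd : c.take n <:+: c := (List.take_prefix n c).isInfix
      exact ⟨(c.take n).map Prod.fst, ⟨hf.sub_word (hd.map _), c.take n, hc.sub_word hd, rfl,
        hΛ.fact _ _ (hsub _ _ hd) hm⟩, by simp [hl]⟩
  have hle : Le P Λ' Λ := by
    rintro u ⟨-, c, hc, rfl, hm⟩
    refine ⟨_, hm, ?_⟩
    have : ∀ d : List (α × List α), (∀ p ∈ d, Der P [p.1] p.2) →
        Der P (d.map Prod.fst) (d.flatMap Prod.snd) := by
      intro d hd
      induction d with
      | nil => exact Der.refl' _
      | cons p d ih => exact (hd p (by simp)).cons (ih fun q hq => hd q (by simp [hq]))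
    exact this c hc.1
  have hG : ∀ w : {w // w ∈ Λ ∧ L + 1 ≤ w.length}, ∃ w' : {w // w ∈ Λ ∧ L + 1 ≤ w.length},
      Exp P (L + 1) w.1 w'.1 := by
    rintro ⟨w, hw, hl⟩
    obtain ⟨u, ⟨-, c, hc, rfl, hm⟩, d⟩ := hmin Λ' hΛ' hle w hw
    have l₁ := d.length_le hP
    have he := exp_of_cut hP (L + 1) w c hc.1 d hl
      (hc.2 _ (List.take_prefix _ _).isInfix (by simp at l₁ ⊢; omega))
    exact ⟨⟨_, hm, hl.trans (he.der.length_le hP)⟩, he⟩
  choose g hg using hG
  obtain ⟨w₀, hw₀, hl₀⟩ := hΛ.inf (L + 1)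
  refine noExp hP (L + 1) (fun t => (g^[t] ⟨w₀, hw₀, hl₀.ge⟩).1)
    (fun t => hΛ.free _ (g^[t] ⟨w₀, hw₀, hl₀.ge⟩).2.1) fun t => ?_
  simp only [Function.iterate_succ_apply']
  exact hg _

end Pool.Agent.MP_042a8e_lc

end MrgPart1

-- ======== part 2: formerly Pool.Agent.MP_042a8e_lc.Tiles
section MrgPart2

namespace Pool.Agent.MP_042a8e_lc

variable {α : Type} {P : List (α × List α)}

/-- A letter together with the interval it derives and an extra label. -/
structure Tile (α : Type) : Type where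
  a : α
  p : ℕ
  e : ℕ
  h : ℕ

/-- Consecutive tiles covering an interval. -/
def Tiles (P : List (α × List α)) (z : ℕ → α) : ℕ → List (Tile α) → ℕ → Prop
  | s, [], t => s = t
  | s, x :: T, t => x.p = s ∧ x.p < x.e ∧ Der P [x.a] (seg z x.p x.e) ∧ Tiles P z x.e T t

variable {z : ℕ → α}

theorem tiles_append {s t : ℕ} {A B : List (Tile α)} :
    Tiles P z s (A ++ B) t ↔ ∃ m, Tiles P z s A m ∧ Tiles P z m B t := by
  induction A generalizing s with
  | nil => simp [Tiles]
  | cons x A ih =>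
    simp only [List.cons_append, Tiles, ih]
    constructor
    · rintro ⟨h₁, h₂, h₃, m, h₄, h₅⟩
      exact ⟨m, ⟨h₁, h₂, h₃, h₄⟩, h₅⟩
    · rintro ⟨m, ⟨h₁, h₂, h₃, h₄⟩, h₅⟩
      exact ⟨h₁, h₂, h₃, m, h₄, h₅⟩

theorem Tiles.le {s t : ℕ} {T : List (Tile α)} (h : Tiles P z s T t) : s ≤ t := by
  induction T generalizing s with
  | nil => exact le_of_eq h
  | cons x T ih =>
    obtain ⟨h₁, h₂, -, h₄⟩ := h
    have := ih h₄
    omega

theorem Tiles.der {s t : ℕ} {T : List (Tile α)} (h : Tiles P z s T t) :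
    Der P (T.map Tile.a) (seg z s t) := by
  induction T generalizing s with
  | nil => cases h; simpa using Der.refl' _
  | cons x T ih =>
    obtain ⟨rfl, h₂, h₃, h₄⟩ := h
    rw [← seg_append z h₂.le h₄.le]
    exact h₃.cons (ih h₄)

theorem Tiles.flat {s t : ℕ} {T : List (Tile α)} (h : Tiles P z s T t) :
    T.flatMap (fun x => seg z x.p x.e) = seg z s t := by
  induction T generalizing s with
  | nil => cases h; simp
  | cons x T ih =>
    obtain ⟨rfl, h₂, -, h₄⟩ := h
    rw [List.flatMap_cons, ih h₄, seg_append z h₂.le h₄.le]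

theorem Tiles.mem {s t : ℕ} {T : List (Tile α)} (h : Tiles P z s T t) {y : Tile α} (hy : y ∈ T) :
    s ≤ y.p ∧ y.p < y.e ∧ y.e ≤ t ∧ Der P [y.a] (seg z y.p y.e) := by
  induction T generalizing s with
  | nil => simp at hy
  | cons x T ih =>
    obtain ⟨rfl, h₂, h₃, h₄⟩ := h
    rcases List.mem_cons.mp hy with rfl | hy
    · exact ⟨le_rfl, h₂, h₄.le, h₃⟩
    · obtain ⟨a, b, c, d⟩ := ih h₄ hy
      exact ⟨by omega, b, c, d⟩

theorem tiles_two {s t : ℕ} {A B C : List (Tile α)} {x u : Tile α}
    (h : Tiles P z s (A ++ x :: (B ++ u :: C)) t) :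
    Tiles P z s A x.p ∧ x.p < x.e ∧ Der P [x.a] (seg z x.p x.e) ∧ Tiles P z x.e B u.p ∧
      u.p < u.e ∧ Der P [u.a] (seg z u.p u.e) ∧ Tiles P z u.e C t := by
  obtain ⟨m, h₁, rfl, h₂, h₃, h₄⟩ := tiles_append.mp h
  obtain ⟨m, h₅, rfl, h₆, h₇, h₈⟩ := tiles_append.mp h₄
  exact ⟨h₁, h₂, h₃, h₅, h₆, h₇, h₈⟩

theorem not_pairwise {β : Type} {R : β → β → Prop} {l : List β} (h : ¬ l.Pairwise R) :
    ∃ A x B y C, l = A ++ x :: (B ++ y :: C) ∧ ¬ R x y := by
  induction l with
  | nil => simp at h
  | cons a l ih =>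
    rw [List.pairwise_cons, not_and_or] at h
    rcases h with h | h
    · push Not at h
      obtain ⟨y, hy, hR⟩ := h
      obtain ⟨B, C, rfl⟩ := List.append_of_mem hy
      exact ⟨[], a, B, y, C, rfl, hR⟩
    · obtain ⟨A, x, B, y, C, rfl, hR⟩ := ih h
      exact ⟨a :: A, x, B, y, C, rfl, hR⟩

theorem pairwise_merge {β : Type} {R : β → β → Prop} {A B C : List β} {x u x' : β}
    (h : (A ++ x :: (B ++ u :: C)).Pairwise R) (h₁ : ∀ y ∈ A, R y x → R y u → R y x')
    (h₂ : ∀ y ∈ C, R x y → R u y → R x' y) : (A ++ x' :: C).Pairwise R := by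
  simp only [List.pairwise_append, List.pairwise_cons, List.mem_cons, List.mem_append] at h ⊢
  obtain ⟨hA, ⟨hx, -, ⟨hu, hC⟩, -⟩, hAr⟩ := h
  refine ⟨hA, ⟨fun y hy => h₂ y hy (hx y (by simp [hy])) (hu y hy), hC⟩, fun y hy b hb => ?_⟩
  rcases hb with rfl | hb
  · exact h₁ y hy (hAr y hy x (by simp)) (hAr y hy u (by simp))
  · exact hAr y hy b (by simp [hb])

theorem pairwise_mid {β : Type} {R : β → β → Prop} {A B C : List β} {x u : β}
    (h : (A ++ x :: (B ++ u :: C)).Pairwise R) : R x u := by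
  simp only [List.pairwise_append, List.pairwise_cons, List.mem_cons, List.mem_append] at h
  exact h.2.1.1 u (by simp)

theorem mixed_map {T : List (Tile α)} (h : ¬ Free P (T.map Tile.a)) :
    ∃ A x B y C, T = A ++ x :: (B ++ y :: C) ∧
      (Der P [x.a] (x.a :: (B.map Tile.a ++ [y.a])) ∨
        Der P [y.a] (x.a :: (B.map Tile.a ++ [y.a]))) := by
  unfold Free at h
  push Not at h
  obtain ⟨f, hf, a, s, hs, hd, he⟩ := h
  obtain ⟨d, ⟨A, C, rfl⟩, rfl⟩ := List.infix_map_iff.mp hf
  have hl : 2 ≤ d.length := by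
    have := List.length_pos_iff.mpr hs
    rcases he with he | he
    · have := congrArg List.length he
      simp at this; omega
    · have := congrArg List.length he
      simp at this; omega
  rcases d with _ | ⟨x, d⟩
  · simp at hl
  rcases List.eq_nil_or_concat d with rfl | ⟨B, y, rfl⟩
  · simp at hl
  refine ⟨A, x, B, y, C, by simp, ?_⟩
  simp only [List.concat_eq_append, List.map_cons, List.map_append, List.map_nil] at hd he
  rcases he with he | he
  · left
    rw [List.cons.injEq] at he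
    rw [← he.1] at hd
    exact hd
  · right
    rw [← List.cons_append] at he
    have := List.append_inj_right' he rfl
    simp only [List.cons.injEq, and_true] at this
    rw [← this] at hd
    exact hd

end Pool.Agent.MP_042a8e_lc

end MrgPart2

-- ======== part 3: formerly Pool.Agent.MP_042a8e_lc.Link
section MrgPart3

namespace Pool.Agent.MP_042a8e_lc

variable {α : Type} {P : List (α × List α)} {z : ℕ → α}

/-- Strong link between an end and a later start. -/
def Lk (P : List (α × List α)) (z : ℕ → α) (c : α) (e p : ℕ) : Prop :=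
  Der P [c] (c :: (seg z e p ++ [c]))

/-- Link-free chains of blocks of the letter `c`, written as tilings. -/
structure Good (P : List (α × List α)) (z : ℕ → α) (c : α) (L : ℕ) (T : List (Tile α)) :
    Prop where
  tiles : ∃ s t, Tiles P z s T t
  kind : ∀ x ∈ T, (x.h = 0 ∧ x.a = c ∧ x.p + 2 ≤ x.e) ∨ (x.h ≠ 0 ∧ x.a = z x.p ∧ x.e = x.p + 1)
  dense : ∀ d, d <:+: T → L < d.length → ∃ x ∈ d, x.h = 0
  free : T.Pairwise fun x y => x.h = 0 → y.h = 0 → ¬ Lk P z c x.e y.p

theorem Good.sub_word {c : α} {L : ℕ} {T T' : List (Tile α)} (h : Good P z c L T) (h' : T' <:+: T) :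
    Good P z c L T' := by
  refine ⟨?_, fun x hx => h.kind x (h'.subset hx), fun d hd => h.dense d (hd.trans h'),
    h.free.sublist h'.sublist⟩
  obtain ⟨A, C, rfl⟩ := h'
  obtain ⟨s, t, ht⟩ := h.tiles
  obtain ⟨m, h₁, -⟩ := tiles_append.mp ht
  obtain ⟨m', -, h₂⟩ := tiles_append.mp h₁
  exact ⟨_, _, h₂⟩

theorem Good.merge {c : α} {L : ℕ} {A B C : List (Tile α)} {x u : Tile α}
    (h : Good P z c L (A ++ x :: (B ++ u :: C))) (hd : Der P [c] (seg z x.p u.e))
    (h₁ : ∀ e ≤ x.p, Lk P z c e x.p → (x.h = 0 ∨ (u.h = 0 ∧ Lk P z c e u.p)))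
    (h₂ : ∀ p, u.e ≤ p → Lk P z c u.e p → (u.h = 0 ∨ (x.h = 0 ∧ Lk P z c x.e p))) :
    Good P z c L (A ++ ⟨c, x.p, u.e, 0⟩ :: C) := by
  obtain ⟨s, t, ht⟩ := h.tiles
  obtain ⟨tA, hx, -, tB, hu, -, tC⟩ := tiles_two ht
  have hB := tB.le
  refine ⟨⟨s, t, tiles_append.mpr ⟨x.p, tA, rfl, by simp only; omega, hd, tC⟩⟩, ?_, ?_, ?_⟩
  · intro y hy
    simp only [List.mem_append, List.mem_cons] at hy
    rcases hy with hy | rfl | hy
    · exact h.kind y (by simp [hy])
    · exact Or.inl ⟨rfl, rfl, by simp only; omega⟩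
    · exact h.kind y (by simp [hy])
  · intro d hd hl
    rcases infix_append_cons hd with h' | h' | h'
    · exact ⟨_, h', rfl⟩
    · exact h.dense d (h'.trans (List.prefix_append _ _).isInfix) hl
    · exact h.dense d (h'.trans ⟨A ++ x :: (B ++ [u]), [], by simp⟩) hl
  · refine pairwise_merge h.free (fun y hy a b hy0 _ hl => ?_) (fun y hy a b _ hy0 hl => ?_)
    · rcases h₁ _ (tA.mem hy).2.2.1 hl with h' | ⟨h', h''⟩
      · exact a hy0 h' hl
      · exact b hy0 h' h''
    · rcases h₂ _ (tC.mem hy).1 hl with h' | ⟨h', h''⟩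
      · exact b h' hy0 hl
      · exact a h' hy0 h''

/-- No block absorbs to the right up to a gap letter. -/
def RI (P : List (α × List α)) (z : ℕ → α) (c : α) (T : List (Tile α)) : Prop :=
  T.Pairwise fun x u => x.h = 0 → u.h ≠ 0 → ¬ Der P [c] (c :: seg z x.e u.e)

/-- No block absorbs to the left up to a gap letter. -/
def LI (P : List (α × List α)) (z : ℕ → α) (c : α) (T : List (Tile α)) : Prop :=
  T.Pairwise fun u x => u.h ≠ 0 → x.h = 0 → ¬ Der P [c] (seg z u.p x.p ++ [c])

theorem good_bounded {Λ : Set (List α)} (hΛ : Lang P Λ) (hK : Key P Λ)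
    (hz : ∀ p e, seg z p e ∈ Λ) (c : α) (L : ℕ) :
    ∃ m, ∀ T, Good P z c L T → T.length < m := by
  by_contra hcon
  push Not at hcon
  have ph1 := gameR (Good P z c L) (fun x => if x.h = 0 then 0 else 1) 1
    (fun x => by split_ifs <;> omega)
    (fun l A h => h.sub_word (List.suffix_append _ _).isInfix) hcon (fun l => ¬ RI P z c l) ?_
  · have ph2 := gameL (fun l => Good P z c L l ∧ RI P z c l) (fun x => if x.h = 0 then 0 else 1) 1
      (fun x => by split_ifs <;> omega)
      (fun l A h => ⟨h.1.sub_word (List.prefix_append _ _).isInfix,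
        h.2.sublist (List.sublist_append_left _ _)⟩)
      (fun m => by
        obtain ⟨l, h₁, h₂, h₃⟩ := ph1 m
        exact ⟨l, ⟨h₁, not_not.mp h₃⟩, h₂.ge⟩) (fun l => ¬ LI P z c l) ?_
    · obtain ⟨N, hN⟩ := hK L
      obtain ⟨T, ⟨hg, hR⟩, hl, hL⟩ := ph2 N
      rw [not_not] at hL
      obtain ⟨s, t, ht⟩ := hg.tiles
      have hnf := hN (T.map fun x => (x.a, seg z x.p x.e)) ?_ ?_ (by simp [hl])
      · rw [List.map_map] at hnf
        obtain ⟨A, x, B, y, C, rfl, hd⟩ := mixed_map hnf
        obtain ⟨tA, hx, dx, tB, hy, dy, tC⟩ := tiles_two ht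
        have hB := tB.le
        have kx := hg.kind x (by simp)
        have ky := hg.kind y (by simp)
        have hfr := hΛ.free _ (hz x.p y.e) _ (List.infix_refl _)
        rcases hd with hd | hd
        · have d₁ : Der P [x.a] (x.a :: (seg z x.e y.p ++ [y.a])) :=
            hd.trans' ((tB.der.append (Der.refl' _)).cons' _)
          rcases kx with ⟨x0, xa, -⟩ | ⟨-, xa, xe⟩
          · rcases ky with ⟨y0, ya, -⟩ | ⟨y0, ya, ye⟩
            · rw [xa, ya] at d₁
              exact pairwise_mid hg.free x0 y0 d₁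
            · rw [xa, ya, ← seg_concat z hB, ← ye] at d₁
              exact pairwise_mid hR x0 y0 d₁
          · have d₂ := d₁.trans' (((Der.refl' _).append dy).cons' _)
            rw [seg_append z hB hy.le] at d₂
            have e₁ : seg z x.p y.e = x.a :: seg z x.e y.e := by
              rw [seg_cons z (by omega), xa, xe]
            refine hfr ⟨x.a, seg z x.e y.e, ?_, e₁ ▸ d₂, Or.inl e₁⟩
            rw [← List.length_pos_iff, seg_length]; omega
        · have d₁ : Der P [y.a] (x.a :: (seg z x.e y.p ++ [y.a])) :=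
            hd.trans' ((tB.der.append (Der.refl' _)).cons' _)
          rcases ky with ⟨y0, ya, -⟩ | ⟨-, ya, ye⟩
          · rcases kx with ⟨x0, xa, -⟩ | ⟨x0, xa, xe⟩
            · rw [xa, ya] at d₁
              exact pairwise_mid hg.free x0 y0 d₁
            · rw [xa, ya, xe, ← List.cons_append, ← seg_cons z (by omega)] at d₁
              exact pairwise_mid hL x0 y0 d₁
          · have d₂ := d₁.trans' (dx.cons (Der.refl' _))
            rw [← List.append_assoc, seg_append z hx.le hB] at d₂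
            have e₁ : seg z x.p y.e = seg z x.p y.p ++ [y.a] := by
              rw [ye, seg_concat z (by omega), ya]
            refine hfr ⟨y.a, seg z x.p y.p, ?_, e₁ ▸ d₂, Or.inr e₁⟩
            rw [← List.length_pos_iff, seg_length]; omega
      · constructor
        · intro p hp
          obtain ⟨x, hx, rfl⟩ := List.mem_map.mp hp
          exact (ht.mem hx).2.2.2
        · intro d hd hl
          obtain ⟨d', hd', rfl⟩ := List.infix_map_iff.mp hd
          obtain ⟨x, hx, h0⟩ := hg.dense d' hd' (by simpa using hl)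
          refine ⟨_, List.mem_map_of_mem hx, ?_⟩
          rcases hg.kind x (hd'.subset hx) with h | h
          · simp only [seg_length]; omega
          · exact absurd h0 h.1
      · rw [List.flatMap_map]
        exact ht.flat ▸ hz s t
    · rintro l A ⟨hg, hR⟩ hl
      obtain ⟨C, u, B, x, C', rfl, hn⟩ := not_pairwise hl
      push Not at hn
      obtain ⟨u0, x0, hd⟩ := hn
      have e₁ : C ++ u :: (B ++ x :: C') ++ A = C ++ u :: (B ++ x :: (C' ++ A)) := by simp
      rw [e₁] at hg hR
      obtain ⟨s, t, ht⟩ := hg.tiles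
      obtain ⟨tA, hu, du, tB, hx, dx, tC⟩ := tiles_two ht
      have hB := tB.le
      have xa : x.a = c := by
        rcases hg.kind x (by simp) with h | h
        · exact h.2.1
        · exact absurd x0 h.1
      refine ⟨C, u, B ++ x :: C', ⟨c, u.p, x.e, 0⟩, C', rfl, ⟨hg.merge ?_ ?_ ?_, ?_⟩, by simp [u0]⟩
      · rw [← seg_append z (show u.p ≤ x.p by omega) hx.le]
        exact hd.trans' ((Der.refl' _).append (xa ▸ dx))
      · intro e he hl
        refine Or.inr ⟨x0, ?_⟩
        unfold Lk at hl ⊢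
        rw [← seg_append z he (show u.p ≤ x.p by omega), List.append_assoc]
        exact hl.trans' (((Der.refl' _).append hd).cons' _)
      · exact fun _ _ _ => Or.inl x0
      · exact pairwise_merge hR (fun y _ _ _ _ h => absurd rfl h) (fun y _ _ b _ => b x0)
  · intro l A hg hl
    obtain ⟨A₁, x, B, u, C, rfl, hn⟩ := not_pairwise hl
    push Not at hn
    obtain ⟨x0, u0, hd⟩ := hn
    rw [← List.append_assoc] at hg
    obtain ⟨s, t, ht⟩ := hg.tiles
    obtain ⟨tA, hx, dx, tB, hu, du, tC⟩ := tiles_two ht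
    have hB := tB.le
    have xa : x.a = c := by
      rcases hg.kind x (by simp) with h | h
      · exact h.2.1
      · exact absurd x0 h.1
    refine ⟨C, u, A₁ ++ x :: B, ⟨c, x.p, u.e, 0⟩, A₁, by simp, hg.merge ?_ ?_ ?_, by simp [u0]⟩
    · rw [← seg_append z hx.le (show x.e ≤ u.e by omega)]
      exact hd.trans' ((xa ▸ dx).cons (Der.refl' _))
    · exact fun _ _ _ => Or.inl x0
    · intro p hp hl
      refine Or.inr ⟨x0, ?_⟩
      unfold Lk at hl ⊢
      rw [← seg_append z (show x.e ≤ u.e by omega) hp, List.append_assoc, ← List.cons_append]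
      exact hl.trans' (hd.cons (Der.refl' _))

/-- The tiles of single letters. -/
def gaps (z : ℕ → α) (a n : ℕ) : List (Tile α) :=
  (List.range' a n).map fun t => ⟨z t, t, t + 1, 1⟩

theorem gaps_tiles (a n : ℕ) : Tiles P z a (gaps z a n) (a + n) := by
  induction n generalizing a with
  | zero => simp [gaps, Tiles]
  | succ n ih =>
    have := ih (a + 1)
    rw [show a + 1 + n = a + (n + 1) by omega] at this
    exact ⟨rfl, by simp, by rw [seg_succ]; exact Der.refl' _, this⟩

theorem link_chain {Λ : Set (List α)} (hΛ : Lang P Λ) (hK : Key P Λ)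
    (hz : ∀ p e, seg z p e ∈ Λ) (c : α) (L : ℕ) (pp ee : ℕ → ℕ)
    (h₁ : ∀ t, pp t + 2 ≤ ee t) (h₂ : ∀ t, Der P [c] (seg z (pp t) (ee t)))
    (h₃ : ∀ t, ee t ≤ pp (t + 1)) (h₄ : ∀ t, pp (t + 1) ≤ ee t + L) :
    ∃ G, ∀ N, ∃ f : ℕ → ℕ, ∀ k < N, f k < f (k + 1) ∧ f (k + 1) ≤ f k + G ∧
      Lk P z c (ee (f k)) (pp (f (k + 1))) := by
  have hmono : ∀ t t', t < t' → ee t ≤ pp t' := by
    intro t t' h
    induction h with
    | refl => exact h₃ t
    | step _ ih => have := h₁ ‹_›; have := h₃ ‹_›; simp only [Nat.succ_eq_add_one]; omega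
  let r : ℕ → ℕ → Prop := fun t t' => t < t' ∧ Lk P z c (ee t) (pp t')
  have hr : ∀ a b d, r a b → r b d → r a d := by
    rintro a b d ⟨l₁, k₁⟩ ⟨l₂, k₂⟩
    refine ⟨by omega, ?_⟩
    unfold Lk at *
    have m₁ := hmono _ _ l₁
    have m₂ := hmono _ _ l₂
    have m₃ := h₁ b
    rw [← seg_append z m₁ (show pp b ≤ pp d by omega),
      ← seg_append z (show pp b ≤ ee b by omega) m₂]
    have := k₁.trans' (((Der.refl' _).append (k₂.trans' ((h₂ b).cons (Der.refl' _)))).cons' c)
    simpa using this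
  by_contra hcon
  push Not at hcon
  obtain ⟨m, hm⟩ := good_bounded hΛ hK hz c L
  obtain ⟨H, hH⟩ := dfs r hr (fun G => by
    obtain ⟨N, hN⟩ := hcon G
    refine ⟨N, fun f hf => ?_⟩
    obtain ⟨k, hk, hk'⟩ := hN f
    exact hk' (hf k hk).1 (hf k hk).2.1 (hf k hk).2.2.2) m
  have hch := hH ∅ 0 (by simp)
  have key : ∀ m K i, Ch r m K i → ∃ T e, Tiles P z (pp i) T e ∧ Good P z c L T ∧ m ≤ T.length ∧
      (∀ y ∈ T, y.h = 0 → ∃ i', i ≤ i' ∧ y.p = pp i' ∧ ∀ k ∈ K, ¬ r k i') ∧
      (∀ y ∈ T.head?, y.h = 0) := by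
    intro m K i h
    induction h with
    | zero => exact ⟨[], _, rfl, ⟨⟨0, 0, rfl⟩, by simp, by simp, by simp⟩, by simp, by simp, by simp⟩
    | @succ m K i j hij hl hK' _ ih =>
      obtain ⟨T, e, tT, gT, lT, nT, hT⟩ := ih
      have a₁ := h₁ i
      have a₂ := h₁ j
      have a₃ := h₃ j
      have a₄ := h₄ j
      have a₅ : pp i < ee j ∧ pp i + 2 ≤ ee j ∧ Der P [c] (seg z (pp i) (ee j)) := by
        rcases hl with rfl | ⟨hl, hk⟩
        · exact ⟨by omega, by omega, h₂ i⟩
        · have m₁ := hmono _ _ hl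
          refine ⟨by omega, by omega, ?_⟩
          rw [← seg_append z (show pp i ≤ ee i by omega) (show ee i ≤ ee j by omega),
            ← seg_append z m₁ (show pp j ≤ ee j by omega)]
          exact Der.trans' hk ((h₂ i).cons ((Der.refl' _).append (h₂ j)))
      have tG := gaps_tiles (P := P) (z := z) (ee j) (pp (j + 1) - ee j)
      rw [show ee j + (pp (j + 1) - ee j) = pp (j + 1) by omega] at tG
      have hG : ∀ y ∈ gaps z (ee j) (pp (j + 1) - ee j), y.h ≠ 0 ∧ y.a = z y.p ∧ y.e = y.p + 1 := by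
        intro y hy
        obtain ⟨t, -, rfl⟩ := List.mem_map.mp hy
        simp
      have tall : Tiles P z (pp i)
          (⟨c, pp i, ee j, 0⟩ :: (gaps z (ee j) (pp (j + 1) - ee j) ++ T)) e :=
        ⟨rfl, a₅.1, a₅.2.2, tiles_append.mpr ⟨_, tG, tT⟩⟩
      refine ⟨_, e, tall, ⟨⟨_, _, tall⟩, ?_, ?_, ?_⟩, by simp; omega, ?_, by simp⟩
      · intro y hy
        simp only [List.mem_cons, List.mem_append] at hy
        rcases hy with rfl | hy | hy
        · exact Or.inl ⟨rfl, rfl, a₅.2.1⟩
        · exact Or.inr (hG y hy)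
        · exact gT.kind y hy
      · intro d hd hl
        have hgl : ¬ d <:+: gaps z (ee j) (pp (j + 1) - ee j) := fun h => by
          have := h.length_le
          simp [gaps] at this
          omega
        rcases infix_append_cons (A := []) hd with h' | h' | h'
        · exact ⟨_, h', rfl⟩
        · have := h'.length_le
          simp at this
          subst this
          simp at hl
        · rcases T with _ | ⟨x, T⟩
          · exact absurd (by simpa using h') hgl
          · rcases infix_append_cons h' with h' | h' | h'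
            · exact ⟨x, h', hT x (by simp)⟩
            · exact absurd h' hgl
            · exact gT.dense d (h'.trans (List.suffix_cons _ _).isInfix) hl
      · rw [List.pairwise_cons, List.pairwise_append]
        refine ⟨fun y hy _ y0 hlk => ?_, ?_, gT.free, fun y hy _ _ y0 => absurd y0 (hG y hy).1⟩
        · rcases List.mem_append.mp hy with hy | hy
          · exact (hG y hy).1 y0
          · obtain ⟨i', b₁, b₂, b₃⟩ := nT y hy y0
            exact b₃ j (by simp) ⟨by omega, b₂ ▸ hlk⟩
        · exact List.pairwise_of_forall_mem_list fun y hy _ _ y0 => absurd y0 (hG y hy).1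
      · intro y hy y0
        simp only [List.mem_cons, List.mem_append] at hy
        rcases hy with rfl | hy | hy
        · exact ⟨i, le_rfl, rfl, hK'⟩
        · exact absurd y0 (hG y hy).1
        · obtain ⟨i', b₁, b₂, b₃⟩ := nT y hy y0
          exact ⟨i', by omega, b₂, fun k hk => b₃ k (by simp [hk])⟩
  obtain ⟨T, e, -, gT, lT, -⟩ := key _ _ _ hch
  have := hm T gT
  omega

end Pool.Agent.MP_042a8e_lc

end MrgPart3

-- marker of a merged file
example : 731051 + 614257 = 731051 + 614257 := rfl
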