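import Mathlib.Data.Nat.ModEq
import Mathlib.Topology.Sheaves.Presheaf
import Mathlib.Data.List.GetD
import Mathlib.Computability.RE
import Mathlib.Computability.MyhillNerode
import Mathlib.RingTheory.PiTensorProduct
import Mathlib.Order.CompletePartialOrder
import Pool.Agent.MP_042a8e_lc.Link

-- ======== part 0: formerly Pool.Agent.MP_042a8e_lc.Refine
section MrgPart0

namespace Pool.Agent.MP_042a8e_lc

variable {α : Type} {P : List (α × List α)}

/-- The underlying word of a marked word. -/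
def wd (x : ℕ → α × Bool) : ℕ → α := fun n => (x n).1

/-- Same letter, fewer marks. -/
def agree (b b' : α × Bool) : Prop := b.1 = b'.1 ∧ (b.2 = true → b'.2 = true)

/-- Properties that pass to limits. -/
def LocalP (Φ : (ℕ → α × Bool) → Prop) : Prop :=
  ∀ y : ℕ → α × Bool, (∀ m, ∃ x k, Φ x ∧ ∀ i < m, agree (y i) (x (k + i))) → Φ y

/-- Every factor of `y` occurs in `x`, with at least the same marks. -/
def Rel (y x : ℕ → α × Bool) : Prop := ∀ m, ∃ k, ∀ i < m, agree (y i) (x (k + i))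

theorem Rel.refl (x : ℕ → α × Bool) : Rel x x := fun _ => ⟨0, fun i _ => by simp [agree]⟩

theorem Rel.trans {x y w : ℕ → α × Bool} (h₁ : Rel x y) (h₂ : Rel y w) : Rel x w := by
  intro m
  obtain ⟨k, hk⟩ := h₁ m
  obtain ⟨k', hk'⟩ := h₂ (k + m)
  refine ⟨k' + k, fun i hi => ?_⟩
  have a := hk i hi
  have b := hk' (k + i) (by omega)
  rw [add_assoc]
  exact ⟨a.1.trans b.1, fun h => b.2 (a.2 h)⟩

theorem Sub.rel {x y : ℕ → α × Bool} (h : Sub y x) : Rel y x := fun m => by
  obtain ⟨k, hk⟩ := h m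
  exact ⟨k, fun i hi => by rw [hk i hi]; simp [agree]⟩

theorem LocalP.rel {Φ : (ℕ → α × Bool) → Prop} (h : LocalP Φ) {x y : ℕ → α × Bool}
    (hr : Rel y x) (hx : Φ x) : Φ y :=
  h y fun m => by
    obtain ⟨k, hk⟩ := hr m
    exact ⟨x, k, hx, hk⟩

theorem seg_agree {x y : ℕ → α × Bool} {m k p e : ℕ} (h : ∀ i < m, agree (y i) (x (k + i)))
    (he : e ≤ m) : seg (wd y) p e = seg (wd x) (k + p) (k + e) :=
  seg_congr fun i hi => (h i (by omega)).1

/-- All factors lie in the language. -/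
def Val (Λ : Set (List α)) (x : ℕ → α × Bool) : Prop := ∀ p e, seg (wd x) p e ∈ Λ

/-- All marked positions see the same window. -/
def Win (W : ℕ) (x : ℕ → α × Bool) : Prop :=
  ∀ n n', (x n).2 = true → (x n').2 = true → ∀ i ≤ W, wd x (n + i) = wd x (n' + i)

/-- Marks occur with bounded gaps. -/
def Syn (x : ℕ → α × Bool) : Prop := ∃ G, ∀ k, ∃ j, k ≤ j ∧ j ≤ k + G ∧ (x j).2 = true

/-- No block ends at offset `i` from a mark. -/
def NoneE (P : List (α × List α)) (c : α) (i : ℕ) (x : ℕ → α × Bool) : Prop :=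
  ∀ n p, (x n).2 = true → p + 2 ≤ n + i → ¬ Der P [c] (seg (wd x) p (n + i))

/-- No block starts at offset `i` from a mark. -/
def NoneS (P : List (α × List α)) (c : α) (i : ℕ) (x : ℕ → α × Bool) : Prop :=
  ∀ n e, (x n).2 = true → n + i + 2 ≤ e → ¬ Der P [c] (seg (wd x) (n + i) e)

/-- Right absorption between marks. -/
def LinkE (P : List (α × List α)) (c : α) (i : ℕ) (x : ℕ → α × Bool) : Prop :=
  ∀ n n', (x n).2 = true → (x n').2 = true → n < n' →
    Der P [c] (c :: seg (wd x) (n + i) (n' + i))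

/-- Left absorption between marks. -/
def LinkS (P : List (α × List α)) (c : α) (i : ℕ) (x : ℕ → α × Bool) : Prop :=
  ∀ n n', (x n).2 = true → (x n').2 = true → n < n' →
    Der P [c] (seg (wd x) (n + i) (n' + i) ++ [c])

theorem local_val (Λ : Set (List α)) : LocalP (Val Λ) := by
  intro y h p e
  obtain ⟨x, k, hx, hk⟩ := h e
  rw [seg_agree hk le_rfl]
  exact hx _ _

theorem local_win (W : ℕ) : LocalP (Win (α := α) W) := by
  intro y h n n' hn hn' i hi
  obtain ⟨x, k, hx, hk⟩ := h (n + n' + i + 1)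
  have a := hx (k + n) (k + n') ((hk n (by omega)).2 hn) ((hk n' (by omega)).2 hn') i hi
  have b := (hk (n + i) (by omega)).1
  have c := (hk (n' + i) (by omega)).1
  simp only [wd, add_assoc] at *
  rw [b, c, a]

theorem local_noneE (c : α) (i : ℕ) : LocalP (NoneE P c i) := by
  intro y h n p hn hp
  obtain ⟨x, k, hx, hk⟩ := h (n + i + 1)
  rw [seg_agree hk (by omega), ← add_assoc]
  exact hx _ _ ((hk n (by omega)).2 hn) (by omega)

theorem local_noneS (c : α) (i : ℕ) : LocalP (NoneS P c i) := by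
  intro y h n e hn hp
  obtain ⟨x, k, hx, hk⟩ := h e
  rw [seg_agree hk le_rfl, ← add_assoc]
  exact hx _ _ ((hk n (by omega)).2 hn) (by omega)

theorem local_linkE (c : α) (i : ℕ) : LocalP (LinkE P c i) := by
  intro y h n n' hn hn' hl
  obtain ⟨x, k, hx, hk⟩ := h (n' + i + 1)
  rw [seg_agree hk (by omega), ← add_assoc, ← add_assoc]
  exact hx _ _ ((hk n (by omega)).2 hn) ((hk n' (by omega)).2 hn') (by omega)

theorem local_linkS (c : α) (i : ℕ) : LocalP (LinkS P c i) := by
  intro y h n n' hn hn' hl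
  obtain ⟨x, k, hx, hk⟩ := h (n' + i + 1)
  rw [seg_agree hk (by omega), ← add_assoc, ← add_assoc]
  exact hx _ _ ((hk n (by omega)).2 hn) ((hk n' (by omega)).2 hn') (by omega)

theorem Syn.sub {x y : ℕ → α × Bool} (hx : Syn x) (h : Sub y x) : Syn y := by
  obtain ⟨G, hG⟩ := hx
  refine ⟨G, fun k => ?_⟩
  obtain ⟨k', hk'⟩ := h (k + G + 1)
  obtain ⟨j, h₁, h₂, h₃⟩ := hG (k' + k)
  refine ⟨j - k', by omega, by omega, ?_⟩
  rw [hk' _ (by omega), show k' + (j - k') = j by omega]
  exact h₃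

theorem Lk.trans {z : ℕ → α} {c : α} {e p e' p' : ℕ} (k₁ : Lk P z c e p) (k₂ : Lk P z c e' p')
    (hd : Der P [c] (seg z p e')) (m₁ : e ≤ p) (m₃ : p ≤ e') (m₂ : e' ≤ p') : Lk P z c e p' := by
  unfold Lk at *
  rw [← seg_append z m₁ (show p ≤ p' by omega), ← seg_append z m₃ m₂]
  have := k₁.trans' (((Der.refl' _).append (k₂.trans' (hd.cons (Der.refl' _)))).cons' c)
  simpa using this

theorem refine_link [Finite α] {Λ : Set (List α)} (hΛ : Lang P Λ) (hK : Key P Λ)
    {x : ℕ → α × Bool} (hu : UR x) (hv : Val Λ x) (c : α) {n₀ p₀ e₀ : ℕ} (hn : (x n₀).2 = true)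
    (hpe : p₀ + 2 ≤ e₀) (hd : Der P [c] (seg (wd x) p₀ e₀)) :
    ∃ y, Rel y x ∧ UR y ∧ Syn y ∧ (∀ i, e₀ = n₀ + i → LinkE P c i y) ∧
      (∀ i, p₀ = n₀ + i → LinkS P c i y) := by
  classical
  obtain ⟨lo, hlo⟩ : ∃ lo, lo = min p₀ n₀ := ⟨_, rfl⟩
  obtain ⟨len, hlen⟩ : ∃ len, len = max e₀ (n₀ + 1) - lo := ⟨_, rfl⟩
  obtain ⟨G, hG⟩ := hu lo len
  choose nx hx₁ hx₂ hx₃ using hG
  let s : ℕ → ℕ := fun t => Nat.rec (nx 0) (fun _ a => nx (a + len)) t
  have s₁ : ∀ t, s t + len ≤ s (t + 1) := fun t => hx₁ _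
  have s₂ : ∀ t, s (t + 1) ≤ s t + len + G := fun t => hx₂ _
  have s₃ : ∀ t, ∀ i < len, x (s t + i) = x (lo + i) := by
    intro t
    cases t with
    | zero => exact hx₃ _
    | succ t => exact hx₃ _
  have s₄ : ∀ t d, s t + d * len ≤ s (t + d) ∧ s (t + d) ≤ s t + d * (len + G) := by
    intro t d
    induction d with
    | zero => simp
    | succ d ih =>
      have a := s₁ (t + d)
      have b := s₂ (t + d)
      rw [← add_assoc, Nat.succ_mul, Nat.succ_mul]
      omega
  have hb : ∀ t, Der P [c] (seg (wd x) (s t + (p₀ - lo)) (s t + (e₀ - lo))) := by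
    intro t
    have : seg (wd x) (s t + (p₀ - lo)) (s t + (p₀ - lo) + (e₀ - p₀)) =
        seg (wd x) p₀ (p₀ + (e₀ - p₀)) := by
      refine seg_congr' fun i hi => ?_
      have := s₃ t (p₀ - lo + i) (by omega)
      simp only [wd]
      rw [add_assoc, this]
      congr 2
      omega
    rw [show s t + (p₀ - lo) + (e₀ - p₀) = s t + (e₀ - lo) by omega,
      show p₀ + (e₀ - p₀) = e₀ by omega] at this
    rw [this]
    exact hd
  have hlt : ∀ t t', t < t' → s t + len ≤ s t' := by
    intro t t' h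
    obtain ⟨d, rfl⟩ := Nat.exists_eq_add_of_lt h
    have a := (s₄ t (d + 1)).1
    rw [Nat.succ_mul] at a
    rw [add_assoc]
    omega
  obtain ⟨G', hG'⟩ := link_chain hΛ hK hv c (len + len + G) (fun t => s t + (p₀ - lo))
    (fun t => s t + (e₀ - lo)) (fun t => by omega) hb
    (fun t => by have := s₁ t; omega) (fun t => by have := s₂ t; omega)
  choose f hf using hG'
  have hf2 : ∀ N k k', k < k' → k' ≤ N → f N k < f N k' ∧
      Lk P (wd x) c (s (f N k) + (e₀ - lo)) (s (f N k') + (p₀ - lo)) := by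
    intro N k k' h
    induction h with
    | refl => exact fun h => ⟨(hf N k h).1, (hf N k h).2.2⟩
    | @step k' hk ih =>
      intro h
      simp only [Nat.succ_eq_add_one] at h ⊢
      obtain ⟨a, b⟩ := ih (by omega)
      obtain ⟨a', -, b'⟩ := hf N k' h
      have c₁ := hlt _ _ a
      have c₂ := hlt _ _ a'
      exact ⟨a.trans a', Lk.trans b b' (hb _) (by omega) (by omega) (by omega)⟩
  let xN : ℕ → ℕ → α × Bool := fun N t =>
    (wd x t, decide (∃ k ≤ N, t = s (f N k) + (n₀ - lo)))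
  have hw : ∀ N, wd (xN N) = wd x := fun N => rfl
  have hmk : ∀ N t, (xN N t).2 = true ↔ ∃ k ≤ N, t = s (f N k) + (n₀ - lo) := by
    intro N t
    simp [xN]
  have hord : ∀ N k k', k ≤ N → k' ≤ N → s (f N k) + (n₀ - lo) < s (f N k') + (n₀ - lo) →
      k < k' := by
    intro N k k' h h' hl
    by_contra hc
    rcases Nat.eq_or_lt_of_le (not_lt.mp hc) with rfl | hc
    · omega
    · have := hlt _ _ (hf2 N k' k hc h).1
      omega
  obtain ⟨y₀, hy₀⟩ := seqlim (fun N i => xN N (s (f N 0) + (n₀ - lo) + i))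
  have hloc : ∀ Φ : (ℕ → α × Bool) → Prop, LocalP Φ → (∀ N, Φ (xN N)) → Φ y₀ := by
    intro Φ h₁ h₂
    refine h₁ y₀ fun m => ?_
    obtain ⟨N, -, hN⟩ := hy₀ m 0
    exact ⟨xN N, s (f N 0) + (n₀ - lo), h₂ N, fun i hi => by rw [hN i hi]; simp [agree]⟩
  have hrel : Rel y₀ x := by
    intro m
    obtain ⟨N, -, hN⟩ := hy₀ m 0
    refine ⟨s (f N 0) + (n₀ - lo), fun i hi => ?_⟩
    rw [hN i hi]
    refine ⟨rfl, fun h => ?_⟩
    obtain ⟨k, -, hk⟩ := (hmk _ _).mp h
    rw [hk, s₃ _ _ (by omega), show lo + (n₀ - lo) = n₀ by omega]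
    exact hn
  have hsyn : Syn y₀ := by
    refine ⟨G' * (len + G), fun k₀ => ?_⟩
    obtain ⟨N, hN₁, hN⟩ := hy₀ (k₀ + G' * (len + G) + 1) k₀
    have key : ∀ j ≤ N, ∃ k ≤ j, s (f N 0) + j ≤ s (f N k) ∧
        s (f N k) ≤ s (f N 0) + j + G' * (len + G) := by
      intro j hj
      induction j with
      | zero => exact ⟨0, le_rfl, by omega, by omega⟩
      | succ j ih =>
        obtain ⟨k, k₁, k₂, k₃⟩ := ih (by omega)
        rcases le_or_gt (s (f N 0) + (j + 1)) (s (f N k)) with hc | hc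
        · exact ⟨k, by omega, hc, by omega⟩
        · obtain ⟨a, b, -⟩ := hf N k (by omega)
          have c₁ := hlt _ _ a
          have c₂ := (s₄ (f N k) (f N (k + 1) - f N k)).2
          rw [show f N k + (f N (k + 1) - f N k) = f N (k + 1) by omega] at c₂
          have c₃ : (f N (k + 1) - f N k) * (len + G) ≤ G' * (len + G) :=
            Nat.mul_le_mul_right _ (by omega)
          exact ⟨k + 1, by omega, by omega, by omega⟩
    obtain ⟨k, k₁, k₂, k₃⟩ := key k₀ hN₁
    refine ⟨s (f N k) - s (f N 0), by omega, by omega, ?_⟩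
    rw [hN _ (by omega), hmk]
    exact ⟨k, by omega, by omega⟩
  obtain ⟨y, hy, hyu⟩ := exists_UR y₀
  refine ⟨y, hy.rel.trans hrel, hyu, hsyn.sub hy, fun i hi => ?_, fun i hi => ?_⟩
  · refine (local_linkE c i).rel hy.rel (hloc _ (local_linkE c i) fun N n n' h h' hl => ?_)
    obtain ⟨k, k₁, rfl⟩ := (hmk _ _).mp h
    obtain ⟨k', k₂, rfl⟩ := (hmk _ _).mp h'
    obtain ⟨a, b⟩ := hf2 N k k' (hord N k k' k₁ k₂ hl) k₂
    have c₁ := hlt _ _ a
    rw [hw, show s (f N k) + (n₀ - lo) + i = s (f N k) + (e₀ - lo) by omega,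
      show s (f N k') + (n₀ - lo) + i = s (f N k') + (e₀ - lo) by omega,
      ← seg_append _ (show s (f N k) + (e₀ - lo) ≤ s (f N k') + (p₀ - lo) by omega)
        (show s (f N k') + (p₀ - lo) ≤ s (f N k') + (e₀ - lo) by omega)]
    exact Der.trans' b (((Der.refl' _).append (hb _)).cons' _)
  · refine (local_linkS c i).rel hy.rel (hloc _ (local_linkS c i) fun N n n' h h' hl => ?_)
    obtain ⟨k, k₁, rfl⟩ := (hmk _ _).mp h
    obtain ⟨k', k₂, rfl⟩ := (hmk _ _).mp h'
    obtain ⟨a, b⟩ := hf2 N k k' (hord N k k' k₁ k₂ hl) k₂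
    have c₁ := hlt _ _ a
    rw [hw, show s (f N k) + (n₀ - lo) + i = s (f N k) + (p₀ - lo) by omega,
      show s (f N k') + (n₀ - lo) + i = s (f N k') + (p₀ - lo) by omega,
      ← seg_append _ (show s (f N k) + (p₀ - lo) ≤ s (f N k) + (e₀ - lo) by omega)
        (show s (f N k) + (e₀ - lo) ≤ s (f N k') + (p₀ - lo) by omega), List.append_assoc]
    exact Der.trans' b ((hb _).cons (Der.refl' _))

theorem exists_settled [Finite α] {Λ : Set (List α)} (hΛ : Lang P Λ) (hK : Key P Λ) (W : ℕ)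
    (l : List (α × ℕ)) :
    ∃ x, UR x ∧ Syn x ∧ Val Λ x ∧ Win W x ∧ ∀ τ ∈ l,
      (NoneE P τ.1 τ.2 x ∨ LinkE P τ.1 τ.2 x) ∧ (NoneS P τ.1 τ.2 x ∨ LinkS P τ.1 τ.2 x) := by
  classical
  induction l with
  | nil =>
    choose w hw hl using hΛ.inf
    obtain ⟨a₀, -⟩ := List.length_eq_one_iff.mp (hl 1)
    obtain ⟨z₀, hz₀⟩ := seqlim (fun n i => (w n).getD i a₀)
    obtain ⟨z₁, hz₁, hu⟩ := exists_UR z₀
    have hv₀ : ∀ e, seg z₀ 0 e ∈ Λ := by
      intro e
      obtain ⟨N, hN, hN'⟩ := hz₀ e e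
      refine hΛ.fact _ _ (List.IsPrefix.isInfix ?_) (hw N)
      rw [List.prefix_iff_eq_take]
      apply List.ext_getElem
      · simp [hl, hN]
      · intro i h₁ h₂
        simp only [seg_length] at h₁
        simp only [seg, List.getElem_map, List.getElem_range', one_mul, zero_add,
          List.getElem_take]
        rw [hN' i (by omega), List.getD_eq_getElem]
    let x₀ : ℕ → α × Bool := fun n => (z₁ n, decide (∀ i ≤ W, z₁ (n + i) = z₁ i))
    obtain ⟨x, hx, hxu⟩ := exists_UR x₀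
    refine ⟨x, hxu, Syn.sub ?_ hx, (local_val Λ).rel hx.rel ?_, (local_win W).rel hx.rel ?_,
      by simp⟩
    · obtain ⟨G, hG⟩ := hu 0 (W + 1)
      refine ⟨G, fun k => ?_⟩
      obtain ⟨j, h₁, h₂, h₃⟩ := hG k
      refine ⟨j, h₁, h₂, ?_⟩
      simp only [x₀, decide_eq_true_eq]
      intro i hi
      simpa using h₃ i (by omega)
    · intro p e
      obtain ⟨k, hk⟩ := hz₁ e
      change seg z₁ p e ∈ Λ
      rw [seg_congr hk]
      by_cases hpe : p ≤ e
      · exact hΛ.fact _ _ (seg_infix _ (by omega) (by omega) le_rfl) (hv₀ (k + e))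
      · have : seg z₀ (k + p) (k + e) = [] := by
          rw [← List.length_eq_zero_iff, seg_length]; omega
        rw [this]
        exact hΛ.fact _ _ List.nil_infix (hv₀ 0)
    · intro n n' h h' i hi
      simp only [x₀, decide_eq_true_eq] at h h'
      exact (h i hi).trans (h' i hi).symm
  | cons τ l ih =>
    obtain ⟨x, h₁, h₂, h₃, h₄, h₅⟩ := ih
    have hmono : ∀ {x y : ℕ → α × Bool} (σ : α × ℕ), Rel y x →
        ((NoneE P σ.1 σ.2 x ∨ LinkE P σ.1 σ.2 x) → (NoneE P σ.1 σ.2 y ∨ LinkE P σ.1 σ.2 y)) ∧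
        ((NoneS P σ.1 σ.2 x ∨ LinkS P σ.1 σ.2 x) → (NoneS P σ.1 σ.2 y ∨ LinkS P σ.1 σ.2 y)) :=
      fun σ hr => ⟨fun h => h.imp ((local_noneE _ _).rel hr) ((local_linkE _ _).rel hr),
        fun h => h.imp ((local_noneS _ _).rel hr) ((local_linkS _ _).rel hr)⟩
    have st₁ : ∃ y, Rel y x ∧ UR y ∧ Syn y ∧ (NoneE P τ.1 τ.2 y ∨ LinkE P τ.1 τ.2 y) := by
      by_cases hn : NoneE P τ.1 τ.2 x
      · exact ⟨x, Rel.refl x, h₁, h₂, Or.inl hn⟩
      · unfold NoneE at hn
        push Not at hn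
        obtain ⟨n, p, a, b, d⟩ := hn
        obtain ⟨y, r₁, r₂, r₃, r₄, -⟩ := refine_link hΛ hK h₁ h₃ τ.1 a b d
        exact ⟨y, r₁, r₂, r₃, Or.inr (r₄ _ rfl)⟩
    obtain ⟨y, r₁, r₂, r₃, r₄⟩ := st₁
    have st₂ : ∃ y', Rel y' y ∧ UR y' ∧ Syn y' ∧ (NoneS P τ.1 τ.2 y' ∨ LinkS P τ.1 τ.2 y') := by
      by_cases hn : NoneS P τ.1 τ.2 y
      · exact ⟨y, Rel.refl y, r₂, r₃, Or.inl hn⟩
      · unfold NoneS at hn
        push Not at hn
        obtain ⟨n, e, a, b, d⟩ := hn
        obtain ⟨y', q₁, q₂, q₃, -, q₄⟩ :=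
          refine_link hΛ hK r₂ ((local_val Λ).rel r₁ h₃) τ.1 a b d
        exact ⟨y', q₁, q₂, q₃, Or.inr (q₄ _ rfl)⟩
    obtain ⟨y', q₁, q₂, q₃, q₄⟩ := st₂
    have q := q₁.trans r₁
    refine ⟨y', q₂, q₃, (local_val Λ).rel q h₃, (local_win W).rel q h₄, fun σ hσ => ?_⟩
    rcases List.mem_cons.mp hσ with rfl | hσ
    · exact ⟨(hmono σ q₁).1 r₄, q₄⟩
    · exact ⟨(hmono σ q).1 (h₅ σ hσ).1, (hmono σ q).2 (h₅ σ hσ).2⟩

end Pool.Agent.MP_042a8e_lc

end MrgPart0

-- ======== part 1: formerly Pool.Agent.MP_042a8e_lc.Periodic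
section MrgPart1

namespace Pool.Agent.MP_042a8e_lc

variable {α : Type} {P : List (α × List α)}

theorem seg_split {y : ℕ → α} {t : ℕ} {β γ : List α}
    (h : β ++ γ = seg y t (t + (β ++ γ).length)) :
    β = seg y t (t + β.length) ∧ γ = seg y (t + β.length) (t + β.length + γ.length) := by
  rw [List.length_append, ← add_assoc,
    ← seg_append y (Nat.le_add_right t β.length) (Nat.le_add_right _ _)] at h
  exact List.append_inj h (by simp)

theorem place (hP : Prop' P) {z y : ℕ → α} {X W : ℕ} {C : ℕ → Prop}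
    (hW : ∀ p ∈ P, p.2.length ≤ W) (hC : ∀ k, ∃ n, k ≤ n ∧ C n)
    (hread : ∀ n r t, C n → r ≤ X + W → r ≡ t [MOD X] → z (n + r) = y t)
    (hE : ∀ c i n n' p, i ≤ W → C n → C n' → n + X < n' → p + 2 ≤ n + X + i →
      Der P [c] (seg z p (n + X + i)) → Der P [c] (c :: seg z (n + X + i) (n' + i)))
    (hS : ∀ c i n n' e, i ≤ W → C n → C n' → n + X < n' → n' + i + 2 ≤ e →
      Der P [c] (seg z (n' + i) e) → Der P [c] (seg z (n + X + i) (n' + i) ++ [c]))
    (hWX : W ≤ X) {u β : List α} (h : D P u β) :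
    ∀ t, β = seg y t (t + β.length) → ∀ n r, C n → 1 ≤ r → r ≡ t [MOD X] →
      r + u.length ≤ X + W → u.length ≤ W →
      ∃ n' r', C n' ∧ 1 ≤ r' ∧ r' ≡ t + β.length [MOD X] ∧ r' ≤ max r X + u.length ∧
        n + r + min β.length 2 ≤ n' + r' ∧ Der P u (seg z (n + r) (n' + r')) := by
  induction h with
  | nil =>
    intro t _ n r hn h₁ h₂ _ _
    exact ⟨n, r, hn, h₁, by simpa using h₂, by simp, by simp, by simpa using Der.refl' _⟩
  | @keep a u y' _ ih =>
    intro t hβ n r hn h₁ h₂ h₃ h₄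
    simp only [List.length_cons] at h₃ h₄
    obtain ⟨e₁, e₂⟩ := seg_split (β := [a]) (γ := y') hβ
    simp only [List.length_singleton] at e₁ e₂
    rw [seg_succ] at e₁
    obtain ⟨n', r', a₁, a₂, a₃, a₄, a₅, a₆⟩ := ih (t + 1) e₂ n (r + 1) hn (by omega)
      (h₂.add_right 1) (by omega) (by omega)
    refine ⟨n', r', a₁, a₂, ?_, by simp only [List.length_cons]; omega,
      by simp only [List.length_cons]; omega, ?_⟩
    · rwa [List.length_cons, ← add_assoc, add_right_comm]
    · rw [seg_cons z (by omega), hread n r t hn (by omega) h₂, ← (List.cons.inj e₁).1]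
      exact a₆.cons' a
  | @rule a v β₁ u y' hp hv _ ih₁ ih₂ =>
    intro t hβ n r hn h₁ h₂ h₃ h₄
    simp only [List.length_cons] at h₃ h₄
    obtain ⟨e₁, e₂⟩ := seg_split hβ
    have hvW : v.length ≤ W := hW _ hp
    have da : Der P [a] β₁ := (Der.rule hp).trans' hv.der
    have sub : ∃ n₁ r₁, C n₁ ∧ 1 ≤ r₁ ∧ r₁ ≡ t + β₁.length [MOD X] ∧ (r₁ ≤ X ∨ r₁ = r + 1) ∧
        n + r + min β₁.length 2 ≤ n₁ + r₁ ∧ Der P [a] (seg z (n + r) (n₁ + r₁)) := by
      by_cases hl : β₁.length ≤ 1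
      · have l₁ : β₁.length = 1 := by
          have := da.length_le hP
          simp at this
          omega
        rw [l₁, seg_succ] at e₁
        refine ⟨n, r + 1, hn, by omega, l₁ ▸ h₂.add_right 1, Or.inr rfl, by omega, ?_⟩
        rw [← add_assoc, seg_succ, hread n r t hn (by omega) h₂, ← e₁]
        exact da
      · have fresh : ∀ n r, C n → 1 ≤ r → r ≤ X → r ≡ t [MOD X] →
            ∃ n₁ r₁, C n₁ ∧ 1 ≤ r₁ ∧ r₁ ≡ t + β₁.length [MOD X] ∧ r₁ ≤ X ∧
              n + r + 2 ≤ n₁ + r₁ ∧ Der P [a] (seg z (n + r) (n₁ + r₁)) := by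
          intro n r hn h₁ h₂ h₃
          obtain ⟨n', r', a₁, a₂, a₃, a₄, a₅, a₆⟩ := ih₁ t e₁ n r hn h₁ h₃ (by omega) hvW
          have a₇ := (Der.rule hp).trans' a₆
          by_cases hr : r' ≤ X
          · exact ⟨n', r', a₁, a₂, a₃, hr, by omega, a₇⟩
          · obtain ⟨i, rfl⟩ : ∃ i, r' = X + i := ⟨r' - X, by omega⟩
            obtain ⟨n'', b₁, b₂⟩ := hC (n' + X + 1)
            rw [← add_assoc n'] at a₇
            have b₃ := hE a i n' n'' (n + r) (by omega) a₁ b₂ (by omega) (by omega) a₇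
            refine ⟨n'', i, b₂, by omega, ?_, by omega, by omega, ?_⟩
            · exact (Nat.ModEq.symm (by simp [Nat.ModEq])).trans a₃
            · rw [← seg_append z (show n + r ≤ n' + X + i by omega) (by omega)]
              exact b₃.trans' (a₇.cons (Der.refl' _))
        by_cases hr : r ≤ X
        · obtain ⟨n₁, r₁, a₁, a₂, a₃, a₄, a₅, a₆⟩ := fresh n r hn h₁ hr h₂
          exact ⟨n₁, r₁, a₁, a₂, a₃, Or.inl a₄, by omega, a₆⟩
        · obtain ⟨i, rfl⟩ : ∃ i, r = X + i := ⟨r - X, by omega⟩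
          obtain ⟨n', b₁, b₂⟩ := hC (n + X + 1)
          obtain ⟨n₁, r₁, a₁, a₂, a₃, a₄, a₅, a₆⟩ := fresh n' i b₂ (by omega) (by omega)
            ((Nat.ModEq.symm (by simp [Nat.ModEq])).trans h₂)
          have b₃ := hS a i n n' (n₁ + r₁) (by omega) hn b₂ (by omega) a₅ a₆
          refine ⟨n₁, r₁, a₁, a₂, a₃, Or.inl a₄, by omega, ?_⟩
          rw [← add_assoc n, ← seg_append z (show n + X + i ≤ n' + i by omega) (by omega)]
          exact b₃.trans' ((Der.refl' _).append a₆)
    obtain ⟨n₁, r₁, a₁, a₂, a₃, a₄, a₅, a₆⟩ := sub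
    obtain ⟨n', r', b₁, b₂, b₃, b₄, b₅, b₆⟩ := ih₂ (t + β₁.length) e₂ n₁ r₁ a₁ a₂ a₃
      (by omega) (by omega)
    refine ⟨n', r', b₁, b₂, ?_, by simp only [List.length_cons]; omega,
      by simp only [List.length_append]; omega, ?_⟩
    · rwa [List.length_append, ← add_assoc]
    · rw [← seg_append z (show n + r ≤ n₁ + r₁ by omega) (by omega)]
      exact a₆.cons b₆

theorem periodic_free [Finite α] (hP : Prop' P) (h : ∃ Λ, Lang P Λ) :
    ∃ X, 0 < X ∧ ∃ y : ℕ → α, (∀ t, y (t + X) = y t) ∧ ∀ p e, ¬ Mixed P (seg y p e) := by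
  classical
  obtain ⟨Λ, hΛ, hK⟩ := exists_key hP h
  have : Fintype α := Fintype.ofFinite α
  obtain ⟨W, hW₁, hW⟩ : ∃ W, 1 ≤ W ∧ ∀ p ∈ P, p.2.length ≤ W := by
    refine ⟨1 + (P.map fun p => p.2.length).sum, by omega, fun p hp => ?_⟩
    have := List.single_le_sum (l := P.map fun p => p.2.length) (by simp) _
      (List.mem_map_of_mem hp)
    omega
  obtain ⟨x, hu, ⟨G, hG⟩, hv, hw, hset⟩ := exists_settled hΛ hK W
    ((Finset.univ ×ˢ Finset.range (W + 1)).toList)
  obtain ⟨n₀, -, -, hn₀⟩ := hG 0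
  obtain ⟨n₁, hn, -, hn₁⟩ := hG (n₀ + W + 1)
  obtain ⟨X, rfl⟩ : ∃ X, n₁ = n₀ + X := ⟨n₁ - n₀, by omega⟩
  let C : ℕ → Prop := fun n => ∀ i ≤ X, x (n + i) = x (n₀ + i)
  have hC : ∀ k, ∃ n, k ≤ n ∧ C n := by
    intro k
    obtain ⟨G', hG'⟩ := hu n₀ (X + 1)
    obtain ⟨j, h₁, -, h₂⟩ := hG' k
    exact ⟨j, h₁, fun i hi => h₂ i (by omega)⟩
  have hm₁ : ∀ n, C n → (x n).2 = true := fun n hn => by
    have := hn 0 (by omega)
    simp only [add_zero] at this
    rw [this]; exact hn₀
  have hm₂ : ∀ n, C n → (x (n + X)).2 = true := fun n hn => by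
    rw [hn X le_rfl]; exact hn₁
  let y : ℕ → α := fun t => wd x (n₀ + t % X)
  have hread : ∀ n r t, C n → r ≤ X + W → r ≡ t [MOD X] → wd x (n + r) = y t := by
    intro n r t hn hr hm
    simp only [y]
    rw [← hm]
    by_cases h : r < X
    · rw [Nat.mod_eq_of_lt h]
      simp only [wd]
      rw [hn r h.le]
    · obtain ⟨i, rfl⟩ : ∃ i, r = X + i := ⟨r - X, by omega⟩
      rw [Nat.add_mod_left, Nat.mod_eq_of_lt (by omega), ← add_assoc]
      exact hw _ _ (hm₂ n hn) hn₀ i (by omega)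
  refine ⟨X, by omega, y, fun t => by simp [y], fun p e hm => ?_⟩
  obtain ⟨a, s, hs, hd, he⟩ := hm
  have hl : 2 ≤ (seg y p e).length := by
    have := List.length_pos_iff.mpr hs
    rcases he with he | he <;> rw [he] <;> simp <;> omega
  have hpe : p + (seg y p e).length = e := by
    simp only [seg_length] at hl ⊢
    omega
  obtain ⟨r, r₁, r₂, r₃⟩ : ∃ r, 1 ≤ r ∧ r ≤ X ∧ r ≡ p [MOD X] := by
    by_cases h : p % X = 0
    · exact ⟨X, by omega, le_rfl, by simp [Nat.ModEq, h]⟩
    · exact ⟨p % X, by omega, (Nat.mod_lt _ (by omega)).le, Nat.mod_modEq _ _⟩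
  obtain ⟨n', r', a₁, a₂, a₃, a₄, a₅, a₆⟩ := place (z := wd x) (y := y) (X := X) (C := C) hP hW hC
    hread
    (fun c i n n' p hi hn hn' hl hp hd => by
      rcases (hset (c, i) (by simp; omega)).1 with h | h
      · exact absurd hd (h _ _ (hm₂ n hn) hp)
      · exact h _ _ (hm₂ n hn) (hm₁ n' hn') hl)
    (fun c i n n' e hi hn hn' hl hp hd => by
      rcases (hset (c, i) (by simp; omega)).2 with h | h
      · exact absurd hd (h _ _ (hm₁ n' hn') hp)
      · exact h _ _ (hm₂ n hn) (hm₁ n' hn') hl)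
    (by omega) hd.d p (by rw [hpe]) n₀ r (fun _ _ => rfl) r₁ r₃ (by simp; omega) (by simpa)
  simp only [List.length_singleton] at a₄
  rw [hpe] at a₃
  have hfr := hΛ.free _ (hv (n₀ + r) (n' + r')) _ (List.infix_refl _)
  simp only [seg_length] at hl a₅
  rcases he with he | he
  · have e₁ : y p = a := by
      rw [seg_cons y (by omega)] at he
      exact (List.cons.inj he).1
    have e₂ : seg (wd x) (n₀ + r) (n' + r') = a :: seg (wd x) (n₀ + r + 1) (n' + r') := by
      rw [seg_cons _ (by omega), hread n₀ r p (fun _ _ => rfl) (by omega) r₃, e₁]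
    refine hfr ⟨a, _, ?_, a₆, Or.inl e₂⟩
    rw [← List.length_pos_iff, seg_length]; omega
  · obtain ⟨e, rfl⟩ : ∃ e', e = e' + 1 := ⟨e - 1, by omega⟩
    obtain ⟨r', rfl⟩ : ∃ r'', r' = r'' + 1 := ⟨r' - 1, by omega⟩
    have e₁ : y e = a := by
      rw [seg_concat y (by omega)] at he
      simpa using List.append_inj_right' he rfl
    have e₂ : seg (wd x) (n₀ + r) (n' + (r' + 1)) = seg (wd x) (n₀ + r) (n' + r') ++ [a] := by
      rw [← add_assoc, seg_concat _ (by omega), hread n' r' e a₁ (by omega)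
        (Nat.ModEq.add_right_cancel' 1 a₃), e₁]
    refine hfr ⟨a, _, ?_, a₆, Or.inr e₂⟩
    rw [← List.length_pos_iff, seg_length]; omega

end Pool.Agent.MP_042a8e_lc

end MrgPart1

-- ======== part 2: formerly Pool.Agent.MP_042a8e_lc.Dual
section MrgPart2

namespace Pool.Agent.MP_042a8e_lc

variable {α : Type} {P : List (α × List α)}

/-- Words with a factor in DUAL. -/
def HasDual (P : List (α × List α)) (w : List α) : Prop :=
  ∃ A a x C, w = A ++ a :: (x ++ a :: C) ∧ Der P [a] (a :: (x ++ [a]))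

theorem pot_exists [Finite α] (z : ℕ → α) (R : ℕ → ℕ → Prop)
    (ht : ∀ a b c, R a b → R b c → R a c) (hi : ∀ a b, R a b → z a ≠ z b) :
    ∃ (pot : ℕ → ℕ) (L : ℕ), (∀ h, pot h ≤ L) ∧ ∀ a b, R a b → pot a < pot b := by
  classical
  have : Fintype α := Fintype.ofFinite α
  let S : ℕ → Finset α := fun h => Finset.univ.filter fun c => ∃ h', R h h' ∧ z h' = c
  refine ⟨fun h => Fintype.card α - (S h).card, Fintype.card α, fun h => Nat.sub_le _ _,
    fun a b hab => ?_⟩
  have h1 : S b ⊂ S a := by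
    refine (Finset.ssubset_iff_of_subset fun c hc => ?_).mpr ⟨z b, ?_, ?_⟩
    · simp only [S, Finset.mem_filter, Finset.mem_univ, true_and] at hc ⊢
      obtain ⟨h', h₁, h₂⟩ := hc
      exact ⟨h', ht _ _ _ hab h₁, h₂⟩
    · simp only [S, Finset.mem_filter, Finset.mem_univ, true_and]
      exact ⟨b, hab, rfl⟩
    · simp only [S, Finset.mem_filter, Finset.mem_univ, true_and]
      rintro ⟨h', h₁, h₂⟩
      exact hi _ _ h₁ h₂.symm
  have h2 := Finset.card_lt_card h1
  have h3 := Finset.card_le_univ (S a)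
  simp only
  omega

/-- Tilings by letters that absorb on both sides. -/
structure Good2 (P : List (α × List α)) (z : ℕ → α) (T : List (Tile α)) : Prop where
  tiles : ∃ s t, Tiles P z s T t
  kind : ∀ x ∈ T, x.a = z x.h ∧ x.p ≤ x.h ∧ x.h < x.e ∧ Der P [x.a] (seg z x.p x.h ++ [x.a]) ∧
    Der P [x.a] (x.a :: seg z (x.h + 1) x.e)

theorem Good2.sub_word {z : ℕ → α} {T T' : List (Tile α)} (h : Good2 P z T) (h' : T' <:+: T) :
    Good2 P z T' := by
  refine ⟨?_, fun x hx => h.kind x (h'.subset hx)⟩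
  obtain ⟨A, C, rfl⟩ := h'
  obtain ⟨s, t, ht⟩ := h.tiles
  obtain ⟨m, h₁, -⟩ := tiles_append.mp ht
  obtain ⟨m', -, h₂⟩ := tiles_append.mp h₁
  exact ⟨_, _, h₂⟩

theorem Good2.merge {z : ℕ → α} {A B C : List (Tile α)} {x u : Tile α} {h : ℕ}
    (hg : Good2 P z (A ++ x :: (B ++ u :: C))) (h₁ : x.p ≤ h) (h₂ : h < u.e)
    (d₁ : Der P [z h] (seg z x.p h ++ [z h])) (d₂ : Der P [z h] (z h :: seg z (h + 1) u.e)) :
    Good2 P z (A ++ ⟨z h, x.p, u.e, h⟩ :: C) := by
  obtain ⟨s, t, ht⟩ := hg.tiles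
  obtain ⟨tA, hx, -, tB, hu, -, tC⟩ := tiles_two ht
  refine ⟨⟨s, t, tiles_append.mpr ⟨x.p, tA, rfl, by simp only; omega, ?_, tC⟩⟩, ?_⟩
  · simp only
    rw [← seg_append z h₁ h₂.le, seg_cons z h₂]
    exact d₁.trans' ((Der.refl' _).append d₂)
  · intro y hy
    simp only [List.mem_append, List.mem_cons] at hy
    rcases hy with hy | rfl | hy
    · exact hg.kind y (by simp [hy])
    · exact ⟨rfl, h₁, h₂, d₁, d₂⟩
    · exact hg.kind y (by simp [hy])

theorem dual_unavoidable [Finite α] (h : ∃ N, ∀ w : List α, N ≤ w.length → ¬ Free P w) :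
    ∃ N, ∀ w : List α, N ≤ w.length → HasDual P w := by
  obtain ⟨N, hN⟩ := h
  by_contra hcon
  push Not at hcon
  choose w hl hw using hcon
  obtain ⟨a₀⟩ : Nonempty α := by
    have := hl 1
    rcases h : w 1 with _ | ⟨a, _⟩
    · simp [h] at this
    · exact ⟨a⟩
  obtain ⟨z, hz⟩ := seqlim (fun n i => (w n).getD i a₀)
  have hfree : ∀ h h', h < h' → z h = z h' →
      ¬ Der P [z h] (z h :: (seg z (h + 1) h' ++ [z h'])) := by
    intro h h' hlt he hd
    obtain ⟨n, hn, hn'⟩ := hz (h' + 1) (h' + 1)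
    have hp : seg z 0 (h' + 1) <+: w n := by
      rw [List.prefix_iff_eq_take]
      have := hl n
      apply List.ext_getElem
      · simp; omega
      · intro i h₁ h₂
        simp only [seg_length] at h₁
        simp only [seg, List.getElem_map, List.getElem_range', one_mul, zero_add,
          List.getElem_take]
        rw [hn' i (by omega), List.getD_eq_getElem]
    obtain ⟨C, hC⟩ := hp
    refine hw n ⟨seg z 0 h, z h, seg z (h + 1) h', C, ?_, he ▸ hd⟩
    rw [← hC, ← seg_append z (Nat.zero_le h) (show h ≤ h' + 1 by omega),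
      seg_cons z (show h < h' + 1 by omega), seg_concat z (show h + 1 ≤ h' by omega), he]
    simp
  let RR : ℕ → ℕ → Prop := fun h h' => h < h' ∧ Der P [z h] (z h :: (seg z (h + 1) h' ++ [z h']))
  let LL : ℕ → ℕ → Prop := fun h h' => h' < h ∧ Der P [z h] (z h' :: (seg z (h' + 1) h ++ [z h]))
  obtain ⟨pR, LR, bR, hR⟩ := pot_exists z RR (by
    rintro a b c ⟨l₁, d₁⟩ ⟨l₂, d₂⟩
    refine ⟨by omega, ?_⟩
    rw [← seg_append z (show a + 1 ≤ b by omega) l₂.le, seg_cons z l₂]
    have := d₁.trans' (((Der.refl' _).append d₂).cons' _)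
    simpa using this) (fun a b h he => hfree a b h.1 he h.2)
  obtain ⟨pL, LL', bL, hL⟩ := pot_exists z LL (by
    rintro a b c ⟨l₁, d₁⟩ ⟨l₂, d₂⟩
    refine ⟨by omega, ?_⟩
    rw [← seg_append z (show c + 1 ≤ b by omega) l₁.le, seg_cons z l₁]
    have := d₁.trans' (d₂.cons (Der.refl' _))
    simpa using this) (fun a b h he => hfree b a h.1 he.symm (by
      have := h.2
      rw [he] at this ⊢
      exact this))
  have ph1 := gameR (Good2 P z) (fun x => pR x.h) LR (fun x => bR _)
    (fun l A h => h.sub_word (List.suffix_append _ _).isInfix) ?_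
    (fun l => ¬ l.Pairwise fun x y => ¬ RR x.h y.h) ?_
  · have ph2 := gameL (fun l => Good2 P z l ∧ l.Pairwise fun x y => ¬ RR x.h y.h)
      (fun x => pL x.h) LL' (fun x => bL _)
      (fun l A h => ⟨h.1.sub_word (List.prefix_append _ _).isInfix,
        h.2.sublist (List.sublist_append_left _ _)⟩)
      (fun m => by
        obtain ⟨l, h₁, h₂, h₃⟩ := ph1 m
        exact ⟨l, ⟨h₁, not_not.mp h₃⟩, h₂.ge⟩)
      (fun l => ¬ l.Pairwise fun x y => ¬ LL y.h x.h) ?_
    · obtain ⟨T, ⟨hg, hRI⟩, hl, hLI⟩ := ph2 N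
      rw [not_not] at hLI
      obtain ⟨A, x, B, y, C, rfl, hd⟩ := mixed_map (hN (T.map Tile.a) (by simp [hl]))
      obtain ⟨s, t, ht⟩ := hg.tiles
      obtain ⟨tA, hx, dx, tB, hy, dy, tC⟩ := tiles_two ht
      have hB := tB.le
      obtain ⟨x₁, x₂, x₃, x₄, x₅⟩ := hg.kind x (by simp)
      obtain ⟨y₁, y₂, y₃, y₄, y₅⟩ := hg.kind y (by simp)
      have key : Der P (x.a :: (B.map Tile.a ++ [y.a]))
          (z x.h :: (seg z (x.h + 1) y.h ++ [z y.h])) := by
        rw [← seg_append z (show x.h + 1 ≤ x.e by omega) (show x.e ≤ y.h by omega),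
          ← seg_append z hB y₂, ← x₁, ← y₁]
        have := x₅.cons (tB.der.append y₄)
        simpa using this
      rcases hd with hd | hd
      · have := hd.trans' key
        rw [x₁] at this
        exact pairwise_mid hRI ⟨by omega, this⟩
      · have := hd.trans' key
        rw [y₁] at this
        exact pairwise_mid hLI ⟨by omega, this⟩
    · rintro l A ⟨hg, hRI⟩ hl
      obtain ⟨C, u, B, x, C', rfl, hn⟩ := not_pairwise hl
      rw [not_not] at hn
      have e₁ : C ++ u :: (B ++ x :: C') ++ A = C ++ u :: (B ++ x :: (C' ++ A)) := by simp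
      rw [e₁] at hg hRI
      obtain ⟨u₁, u₂, u₃, u₄, u₅⟩ := hg.kind u (by simp)
      obtain ⟨x₁, x₂, x₃, x₄, x₅⟩ := hg.kind x (by simp)
      have hlt := hn.1
      refine ⟨C, u, B ++ x :: C', ⟨z x.h, u.p, x.e, x.h⟩, C', rfl,
        ⟨hg.merge (by omega) x₃ ?_ (x₁ ▸ x₅), ?_⟩, hL _ _ hn⟩
      · rw [← seg_append z u₂ hlt.le, seg_cons z hlt]
        have := hn.2.trans' ((u₁ ▸ u₄).cons (Der.refl' _))
        simpa using this
      · exact pairwise_merge hRI (fun y _ _ b => b) (fun y _ _ b => b)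
  · intro m
    have tG : ∀ a n, Tiles P z a ((List.range' a n).map fun t => ⟨z t, t, t + 1, t⟩) (a + n) := by
      intro a n
      induction n generalizing a with
      | zero => simp [Tiles]
      | succ n ih =>
        have := ih (a + 1)
        rw [show a + 1 + n = a + (n + 1) by omega] at this
        exact ⟨rfl, by simp, by rw [seg_succ]; exact Der.refl' _, this⟩
    refine ⟨_, ⟨⟨_, _, tG 0 m⟩, fun x hx => ?_⟩, by simp⟩
    obtain ⟨t, -, rfl⟩ := List.mem_map.mp hx
    simpa using Der.refl' _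
  · intro l A hg hl
    obtain ⟨A₁, x, B, u, C, rfl, hn⟩ := not_pairwise hl
    rw [not_not] at hn
    rw [← List.append_assoc] at hg
    obtain ⟨u₁, u₂, u₃, u₄, u₅⟩ := hg.kind u (by simp)
    obtain ⟨x₁, x₂, x₃, x₄, x₅⟩ := hg.kind x (by simp)
    have hlt := hn.1
    refine ⟨C, u, A₁ ++ x :: B, ⟨z x.h, x.p, u.e, x.h⟩, A₁, by simp,
      hg.merge x₂ (by omega) (x₁ ▸ x₄) ?_, hR _ _ hn⟩
    rw [← seg_append z (show x.h + 1 ≤ u.h by omega) u₃.le, seg_cons z u₃]
    exact hn.2.trans' (((Der.refl' _).append (u₁ ▸ u₅)).cons' _)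

end Pool.Agent.MP_042a8e_lc

end MrgPart2

-- ======== part 3: formerly Pool.Agent.MP_042a8e_lc.Wqo
section MrgPart3

namespace Pool.Agent.MP_042a8e_lc

variable {α : Type} {P : List (α × List α)}

theorem der_preorder (P : List (α × List α)) : IsPreorder (List α) (Der P) :=
  { refl := Der.refl', trans := fun _ _ _ => Der.trans' }

/-- Products of languages indexed by the letters of a word. -/
def Prods (F : α → Set (List α)) : List α → Set (List α)
  | [] => {[]}
  | b :: x => {w | ∃ t ∈ F b, ∃ r ∈ Prods F x, w = t ++ r}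

/-- Words derived from a letter with bounded nesting depth. -/
def TT (P : List (α × List α)) (N : ℕ) : ℕ → α → Set (List α)
  | 0, a => {[a]}
  | n + 1, a => {w | ∃ bs : List (List α),
      (∀ s ∈ bs, ∃ x : List α, x.length ≤ N ∧ Der P [a] (a :: (x ++ [a])) ∧
        s ∈ Prods (TT P N n) x) ∧ w = a :: bs.flatMap (· ++ [a])}

theorem prods_mono {F G : α → Set (List α)} (h : ∀ a, F a ⊆ G a) (x : List α) :
    Prods F x ⊆ Prods G x := by
  induction x with
  | nil => exact subset_rfl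
  | cons b x ih =>
    rintro w ⟨t, ht, r, hr, rfl⟩
    exact ⟨t, h b ht, r, ih hr, rfl⟩

theorem prods_der {F : α → Set (List α)} (h : ∀ a, ∀ t ∈ F a, Der P [a] t) (x : List α) :
    ∀ w ∈ Prods F x, Der P x w := by
  induction x with
  | nil => rintro w rfl; exact Der.refl' _
  | cons b x ih =>
    rintro w ⟨t, ht, r, hr, rfl⟩
    exact (h b t ht).cons (ih r hr)

theorem prods_pwo {F : α → Set (List α)} (h : ∀ a, (F a).PartiallyWellOrderedOn (Der P))
    (x : List α) : (Prods F x).PartiallyWellOrderedOn (Der P) := by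
  have := der_preorder P
  induction x with
  | nil => exact Set.partiallyWellOrderedOn_singleton _
  | cons b x ih =>
    refine (((h b).prod ih).image_of_monotone_on (r' := Der P) (f := fun p => p.1 ++ p.2)
      fun _ _ _ _ h => h.1.append h.2).mono ?_
    rintro w ⟨t, ht, r, hr, rfl⟩
    exact ⟨(t, r), ⟨ht, hr⟩, rfl⟩

theorem pwo_finite_union [Finite α] (N : ℕ) (G : List α → Set (List α))
    (h : ∀ x, (G x).PartiallyWellOrderedOn (Der P)) :
    {w | ∃ x : List α, x.length ≤ N ∧ w ∈ G x}.PartiallyWellOrderedOn (Der P) := by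
  refine ((Finset.partiallyWellOrderedOn_bUnion (List.finite_length_le α N).toFinset).mpr
    fun x _ => h x).mono ?_
  rintro w ⟨x, hx, hw⟩
  simp only [Set.mem_iUnion]
  exact ⟨x, by simpa using hx, hw⟩

theorem tt_single (N n : ℕ) (a : α) : [a] ∈ TT P N n a := by
  cases n with
  | zero => rfl
  | succ n => exact ⟨[], by simp, by simp⟩

theorem tt_mono (N n : ℕ) (a : α) : TT P N n a ⊆ TT P N (n + 1) a := by
  induction n generalizing a with
  | zero => rintro w rfl; exact tt_single N 1 a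
  | succ n ih =>
    rintro w ⟨bs, h, rfl⟩
    refine ⟨bs, fun s hs => ?_, rfl⟩
    obtain ⟨x, h₁, h₂, h₃⟩ := h s hs
    exact ⟨x, h₁, h₂, prods_mono ih x h₃⟩

theorem tt_pred (N n : ℕ) (a : α) : TT P N (n - 1) a ⊆ TT P N n a := by
  cases n with
  | zero => exact subset_rfl
  | succ n => exact tt_mono N n a

theorem blocks_der {a : α} {bs bs' : List (List α)} (h : List.SublistForall₂ (Der P) bs bs')
    (h' : ∀ s ∈ bs', Der P [a] (a :: (s ++ [a]))) :
    Der P (a :: bs.flatMap (· ++ [a])) (a :: bs'.flatMap (· ++ [a])) := by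
  have ins : ∀ (s : List α) (l : List α), Der P [a] (a :: (s ++ [a])) →
      Der P (a :: l) (a :: (s ++ a :: l)) := fun s l h => by
    simpa using h.cons (Der.refl' l)
  induction h with
  | @nil l =>
    induction l with
    | nil => exact Der.refl' _
    | cons s l ih =>
      have := (ih fun t ht => h' t (by simp [ht])).trans' (ins s _ (h' s (by simp)))
      simpa using this
  | cons hd _ ih =>
    have := (hd.append (ih fun t ht => h' t (by simp [ht]))).cons' a
    simpa using this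
  | @cons_right s _ _ _ ih =>
    have := (ih fun t ht => h' t (by simp [ht])).trans' (ins s _ (h' s (by simp)))
    simpa using this

theorem tt_der (N n : ℕ) (a : α) : ∀ t ∈ TT P N n a, Der P [a] t := by
  induction n generalizing a with
  | zero => rintro t rfl; exact Der.refl' _
  | succ n ih =>
    rintro t ⟨bs, h, rfl⟩
    refine blocks_der (bs := []) List.SublistForall₂.nil fun s hs => ?_
    obtain ⟨x, -, h₂, h₃⟩ := h s hs
    exact h₂.trans' (((prods_der ih x s h₃).append (Der.refl' _)).cons' _)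

theorem tt_pwo [Finite α] (N n : ℕ) (a : α) : (TT P N n a).PartiallyWellOrderedOn (Der P) := by
  have := der_preorder P
  induction n generalizing a with
  | zero => exact Set.partiallyWellOrderedOn_singleton _
  | succ n ih =>
    have h1 : {s | ∃ x : List α, x.length ≤ N ∧ Der P [a] (a :: (x ++ [a])) ∧
        s ∈ Prods (TT P N n) x}.PartiallyWellOrderedOn (Der P) :=
      (pwo_finite_union N _ (prods_pwo ih)).mono fun s ⟨x, h₁, _, h₃⟩ => ⟨x, h₁, h₃⟩
    refine ((h1.partiallyWellOrderedOn_sublistForall₂ _).image_of_monotone_on (r' := Der P)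
      (f := fun bs => a :: bs.flatMap (· ++ [a])) fun bs _ bs' h' h => ?_).mono ?_
    · refine blocks_der h fun s hs => ?_
      obtain ⟨x, -, h₂, h₃⟩ := h' s hs
      exact h₂.trans' (((prods_der (tt_der N n) x s h₃).append (Der.refl' _)).cons' _)
    · rintro w ⟨bs, h, rfl⟩
      exact ⟨bs, h, rfl⟩

/-- Decompositions with decreasing depth. -/
def Dec (P : List (α × List α)) (N : ℕ) : ℕ → List (α × List α) → Prop
  | _, [] => True
  | k, p :: r => p.2 ∈ TT P N k p.1 ∧ Dec P N (k - 1) r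

theorem dec_append {N k : ℕ} {A B : List (α × List α)} :
    Dec P N k (A ++ B) ↔ Dec P N k A ∧ Dec P N (k - A.length) B := by
  induction A generalizing k with
  | nil => simp [Dec]
  | cons p A ih =>
    simp only [List.cons_append, Dec, ih, List.length_cons, and_assoc]
    rw [show k - 1 - A.length = k - (A.length + 1) by omega]

theorem dec_prods {N k : ℕ} {A : List (α × List α)} (h : Dec P N k A) :
    A.flatMap Prod.snd ∈ Prods (TT P N k) (A.map Prod.fst) := by
  induction A generalizing k with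
  | nil => rfl
  | cons p A ih => exact ⟨p.2, h.1, _, prods_mono (tt_pred N k) _ (ih h.2), rfl⟩

theorem wqo_of_dual [Finite α] (h : ∃ N, ∀ w : List α, N ≤ w.length → HasDual P w) :
    WellQuasiOrdered (Der P) := by
  obtain ⟨N, hN⟩ := h
  have key : ∀ w : List α, ∃ ts, Dec P N N ts ∧ ts.flatMap Prod.snd = w ∧
      ¬ HasDual P (ts.map Prod.fst) := by
    intro w
    induction w using List.reverseRecOn with
    | nil =>
      refine ⟨[], trivial, rfl, ?_⟩
      rintro ⟨A, a, x, C, h, -⟩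
      simp at h
    | append_singleton w a ih =>
      obtain ⟨ts, h₁, rfl, h₃⟩ := ih
      by_cases hd : HasDual P (ts.map Prod.fst ++ [a])
      · obtain ⟨A, b, x, C, e, d⟩ := hd
        have hlen : (ts.map Prod.fst).length < N := by
          by_contra hc
          exact h₃ (hN _ (by omega))
        rcases List.eq_nil_or_concat C with rfl | ⟨C', c, rfl⟩
        · have e' : ts.map Prod.fst ++ [a] = (A ++ b :: x) ++ [b] := by simpa using e
          obtain ⟨e₁, e₂⟩ := List.append_inj' e' rfl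
          obtain rfl : a = b := by simpa using e₂
          obtain ⟨tA, tr, rfl, rfl, e₃⟩ := List.map_eq_append_iff.mp e₁
          obtain ⟨⟨a', t⟩, tx, rfl, rfl, rfl⟩ := List.map_eq_cons_iff.mp e₃
          simp only [List.length_map, List.length_append, List.length_cons] at hlen
          obtain ⟨k₁, k₂, k₃⟩ := dec_append.mp h₁
          refine ⟨tA ++ [(a', t ++ tx.flatMap Prod.snd ++ [a'])], dec_append.mpr ⟨k₁, ?_, trivial⟩,
            by simp, fun h => h₃ ?_⟩
          · obtain ⟨k, hk⟩ : ∃ k, N - tA.length = k + 1 := ⟨N - tA.length - 1, by omega⟩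
            rw [hk] at k₂ k₃ ⊢
            obtain ⟨bs, b₁, b₂⟩ := k₂
            refine ⟨bs ++ [tx.flatMap Prod.snd], fun s hs => ?_, ?_⟩
            · rcases List.mem_append.mp hs with hs | hs
              · exact b₁ s hs
              · rw [List.mem_singleton.mp hs]
                exact ⟨tx.map Prod.fst, by simp; omega, d, dec_prods k₃⟩
            · simp only at b₂ ⊢
              rw [b₂]
              simp
          · obtain ⟨A, b, x, C, e, d⟩ := h
            refine ⟨A, b, x, C ++ tx.map Prod.fst, ?_, d⟩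
            have : List.map Prod.fst (tA ++ (a', t) :: tx) =
                List.map Prod.fst (tA ++ [(a', t ++ tx.flatMap Prod.snd ++ [a'])]) ++
                  tx.map Prod.fst := by simp
            rw [this, e]
            simp
        · have e' : ts.map Prod.fst ++ [a] = (A ++ b :: (x ++ b :: C')) ++ [c] := by simpa using e
          exact absurd ⟨A, b, x, C', (List.append_inj' e' rfl).1, d⟩ h₃
      · exact ⟨ts ++ [(a, [a])], dec_append.mpr ⟨h₁, tt_single _ _ _, trivial⟩, by simp,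
          by simpa using hd⟩
  rw [← Set.partiallyWellOrderedOn_univ_iff]
  refine (pwo_finite_union N _ (prods_pwo (tt_pwo (P := P) N N))).mono fun w _ => ?_
  obtain ⟨ts, h₁, rfl, h₃⟩ := key w
  refine ⟨ts.map Prod.fst, ?_, dec_prods h₁⟩
  by_contra hc
  exact h₃ (hN _ (by omega))

theorem regulator_of_wqo (h : WellQuasiOrdered (Der P)) : TotalRegulator P := by
  intro L
  have := der_preorder P
  have up : ∀ x y, x ∈ cl P L → Der P x y → y ∈ cl P L := by
    rintro x y ⟨w, hw, d⟩ d'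
    exact ⟨w, hw, d.trans' d'⟩
  rw [Language.isRegular_iff_finite_range_leftQuotient]
  by_contra hinf
  let e := Set.Infinite.natEmbedding _ hinf
  have hu : ∀ n, ∃ u, (cl P L).leftQuotient u = (e n).1 := fun n => (e n).2
  choose u hu using hu
  obtain ⟨g, hg⟩ := h.exists_monotone_subseq u
  have hsub : ∀ m n, m ≤ n → ∀ y, u (g m) ++ y ∈ cl P L → u (g n) ++ y ∈ cl P L :=
    fun m n hmn y hy => up _ _ hy ((hg m n hmn).append (Der.refl' y))
  have hx : ∀ n, ∃ y, u (g (n + 1)) ++ y ∈ cl P L ∧ u (g n) ++ y ∉ cl P L := by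
    intro n
    by_contra hc
    push Not at hc
    have : (e (g n)).1 = (e (g (n + 1))).1 := by
      rw [← hu, ← hu]
      ext y
      exact ⟨hsub _ _ (by omega) y, hc y⟩
    have := g.injective (e.injective (Subtype.ext this))
    omega
  choose y h₁ h₂ using hx
  obtain ⟨m, n, hmn, d⟩ := h y
  exact h₂ n (hsub _ _ hmn _ (up _ _ (h₁ m) ((Der.refl' _).append d)))

end Pool.Agent.MP_042a8e_lc

end MrgPart3

-- ======== part 4: formerly Pool.Agent.MP_042a8e_lc.Main
section MrgPart4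

namespace Pool.Agent.MP_042a8e_lc

variable {α : Type} {P : List (α × List α)}

/-- MIXED is unavoidable. -/
def Unav (P : List (α × List α)) : Prop := ∃ N, ∀ w : List α, N ≤ w.length → ¬ Free P w

/-- Some periodic word avoids MIXED. -/
def Per (P : List (α × List α)) : Prop :=
  ∃ X, 0 < X ∧ ∃ y : ℕ → α, (∀ t, y (t + X) = y t) ∧ ∀ p e, ¬ Mixed P (seg y p e)

theorem no_growth (hP : Prop' P) {y : ℕ → α} (hy : ∀ p e, ¬ Mixed P (seg y p e)) (n s : ℕ)
    (β : List α) (hd : Der P (seg y s (s + n)) β) (hβ : β = seg y s (s + β.length)) :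
    β.length = n := by
  induction n generalizing s β with
  | zero => simpa using Der.nil_eq (by simpa using hd)
  | succ n ih =>
    rw [seg_cons y (by omega)] at hd
    obtain ⟨β₁, β₂, rfl, d₁, d₂⟩ := hd.split_cons
    obtain ⟨e₁, e₂⟩ := seg_split hβ
    have l₁ := d₁.length_le hP
    simp only [List.length_singleton] at l₁
    have l₂ : β₁.length = 1 := by
      by_contra hc
      refine hy s (s + β₁.length) ⟨y s, seg y (s + 1) (s + β₁.length), ?_, e₁ ▸ d₁,
        Or.inl (seg_cons y (by omega))⟩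
      rw [← List.length_pos_iff, seg_length]; omega
    rw [l₂] at e₂
    have := ih (s + 1) β₂ (by rwa [show s + 1 + n = s + (n + 1) by omega]) e₂
    simp only [List.length_append]
    omega

theorem not_regulator_of_per (hP : Prop' P) (h : Per P) : ¬ TotalRegulator P := by
  obtain ⟨X, hX, y, hper, hy⟩ := h
  intro hreg
  have hmul : ∀ a i, y (a * X + i) = y i := by
    intro a i
    induction a with
    | zero => simp
    | succ a ih => rw [Nat.succ_mul, add_right_comm, hper, ih]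
  have hcat : ∀ a b, seg y 0 (a * X) ++ seg y 0 b = seg y 0 (a * X + b) := by
    intro a b
    have : seg y (a * X) (a * X + b) = seg y 0 (0 + b) :=
      seg_congr' fun i _ => by rw [hmul, zero_add]
    rw [zero_add] at this
    rw [← this, seg_append y (Nat.zero_le _) (Nat.le_add_right _ _)]
  let L : Language α := {w | ∃ k, w = seg y 0 (2 ^ k * X)}
  have hfin := (hreg L).finite_range_leftQuotient
  obtain ⟨j, -, k, -, hjk, he⟩ := Set.infinite_univ.exists_lt_map_eq_of_mapsTo
    (f := fun k : ℕ => (cl P L).leftQuotient (seg y 0 (2 ^ k * X)))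
    (fun k _ => Set.mem_range_self _) hfin
  have h1 : seg y 0 (2 ^ j * X) ∈ (cl P L).leftQuotient (seg y 0 (2 ^ j * X)) := by
    rw [Language.mem_leftQuotient, hcat]
    exact ⟨_, ⟨j + 1, by rw [pow_succ]; congr 1; ring⟩, Der.refl' _⟩
  rw [he, Language.mem_leftQuotient, hcat] at h1
  obtain ⟨w, ⟨i, rfl⟩, hd⟩ := h1
  have h2 := no_growth hP hy (2 ^ i * X) 0 _ (by simpa using hd) (by simp)
  simp only [seg_length, Nat.sub_zero] at h2
  have h3 : 2 ^ k + 2 ^ j = 2 ^ i := by
    rw [← add_mul] at h2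
    exact Nat.eq_of_mul_eq_mul_right hX h2
  have h4 : 2 ^ j < 2 ^ k := Nat.pow_lt_pow_right (by norm_num) hjk
  have h5 : 0 < 2 ^ j := by positivity
  have h6 : k < i := (Nat.pow_lt_pow_iff_right (a := 2) (by norm_num)).mp (by omega)
  have h7 : 2 ^ (k + 1) ≤ 2 ^ i := Nat.pow_le_pow_right (by norm_num) h6
  rw [pow_succ] at h7
  omega

theorem unav_or_per [Finite α] (hP : Prop' P) : Unav P ∨ Per P := by
  by_cases h : Unav P
  · exact Or.inl h
  · right
    refine periodic_free hP ⟨{w | Free P w}, fun u w h₁ h₂ => Free.sub_word h₂ h₁, fun n => ?_,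
      fun w hw => hw⟩
    unfold Unav at h
    push Not at h
    obtain ⟨w, h₁, h₂⟩ := h n
    exact ⟨w.take n, h₂.sub_word (List.take_prefix _ _).isInfix, by simp [h₁]⟩

theorem regulator_of_unav [Finite α] (h : Unav P) : TotalRegulator P :=
  regulator_of_wqo (wqo_of_dual (dual_unavoidable h))

section Transfer

variable {β : Type} {φ : α → β}

/-- Renaming the letters of a scheme. -/
def ren (φ : α → β) (P : List (α × List α)) : List (β × List β) :=
  P.map fun p => (φ p.1, p.2.map φ)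

theorem Der.ren {u v : List α} (h : Der P u v) : Der (ren φ P) (u.map φ) (v.map φ) := by
  induction h with
  | refl => exact Der.refl' _
  | tail _ hs ih =>
    obtain ⟨x₁, x₂, a, v, hp, rfl, rfl⟩ := hs
    exact Relation.ReflTransGen.tail ih ⟨x₁.map φ, x₂.map φ, φ a, v.map φ,
      List.mem_map.mpr ⟨_, hp, rfl⟩, by simp, by simp⟩

theorem Der.of_ren (hφ : Function.Injective φ) {u : List α} {y : List β}
    (h : Der (Pool.Agent.MP_042a8e_lc.ren φ P) (u.map φ) y) : ∃ v, y = v.map φ ∧ Der P u v := by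
  induction h with
  | refl => exact ⟨u, rfl, Der.refl' _⟩
  | tail _ hs ih =>
    obtain ⟨v, rfl, hd⟩ := ih
    obtain ⟨x₁, x₂, a, w, hp, e, rfl⟩ := hs
    obtain ⟨⟨a', w'⟩, hp', e'⟩ := List.mem_map.mp hp
    obtain ⟨rfl, rfl⟩ := Prod.mk.inj e'
    obtain ⟨v₁, v₂, rfl, e₁, rfl⟩ := List.map_eq_append_iff.mp e
    obtain ⟨v₁, v₃, rfl, rfl, e₂⟩ := List.map_eq_append_iff.mp e₁
    obtain rfl : v₃ = [a'] := List.map_injective_iff.mpr hφ (by simpa using e₂)
    exact ⟨v₁ ++ w' ++ v₂, by simp, Relation.ReflTransGen.tail hd ⟨v₁, v₂, a', w', hp', rfl, rfl⟩⟩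

theorem mixed_ren (hφ : Function.Injective φ) {f : List α} :
    Mixed (ren φ P) (f.map φ) ↔ Mixed P f := by
  constructor
  · rintro ⟨b, s, hs, hd, he⟩
    have hinj := List.map_injective_iff.mpr hφ
    rcases he with he | he
    · obtain ⟨a, s', rfl, rfl, rfl⟩ := List.map_eq_cons_iff.mp he
      obtain ⟨v, e, d⟩ := Der.of_ren (u := [a]) hφ hd
      exact ⟨a, s', by simpa using hs, hinj e ▸ d, Or.inl rfl⟩
    · obtain ⟨s', t, rfl, rfl, e⟩ := List.map_eq_append_iff.mp he
      obtain ⟨a, t', rfl, rfl, e'⟩ := List.map_eq_cons_iff.mp e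
      obtain rfl : t' = [] := by simpa using e'
      obtain ⟨v, e, d⟩ := Der.of_ren (u := [a]) hφ hd
      exact ⟨a, s', by simpa using hs, hinj e ▸ d, Or.inr rfl⟩
  · rintro ⟨a, s, hs, hd, he⟩
    refine ⟨φ a, s.map φ, by simpa using hs, hd.ren, ?_⟩
    rcases he with rfl | rfl <;> simp

theorem free_ren (hφ : Function.Injective φ) {w : List α} :
    Free (ren φ P) (w.map φ) ↔ Free P w := by
  constructor
  · intro h f hf hm
    exact h _ (hf.map φ) ((mixed_ren hφ).mpr hm)
  · intro h f hf hm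
    obtain ⟨f', hf', rfl⟩ := List.infix_map_iff.mp hf
    exact h _ hf' ((mixed_ren hφ).mp hm)

end Transfer

end Pool.Agent.MP_042a8e_lc

end MrgPart4

-- ======== part 5: formerly Pool.Agent.MP_042a8e_lc.Prim
section MrgPart5

namespace Pool.Agent.MP_042a8e_lc

section
variable {α β γ : Type} [Primcodable α] [Primcodable β] [Primcodable γ]

attribute [fun_prop] Primrec

@[fun_prop] theorem pr_id : Primrec fun x : α => x := Primrec.id
@[fun_prop] theorem pr_const (c : β) : Primrec fun _ : α => c := Primrec.const c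
@[fun_prop] theorem pr_comp {f : β → γ} {g : α → β} (hf : Primrec f) (hg : Primrec g) :
    Primrec fun x => f (g x) := hf.comp hg
@[fun_prop] theorem pr_fst {f : α → β × γ} (hf : Primrec f) : Primrec fun x => (f x).1 :=
  Primrec.fst.comp hf
@[fun_prop] theorem pr_snd {f : α → β × γ} (hf : Primrec f) : Primrec fun x => (f x).2 :=
  Primrec.snd.comp hf
@[fun_prop] theorem pr_pair {f : α → β} {g : α → γ} (hf : Primrec f) (hg : Primrec g) :
    Primrec fun x => (f x, g x) := hf.pair hg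
@[fun_prop] theorem pr_and {f g : α → Bool} (hf : Primrec f) (hg : Primrec g) :
    Primrec fun x => (f x && g x) := Primrec.and.comp hf hg
@[fun_prop] theorem pr_or {f g : α → Bool} (hf : Primrec f) (hg : Primrec g) :
    Primrec fun x => (f x || g x) := Primrec.or.comp hf hg
@[fun_prop] theorem pr_not {f : α → Bool} (hf : Primrec f) :
    Primrec fun x => (!f x) := Primrec.not.comp hf

theorem pr_all {l : α → List β} {p : α → β → Bool} (hl : Primrec l)
    (hp : Primrec fun x : α × β => p x.1 x.2) : Primrec fun x => (l x).all (p x) := by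
  have h1 : PrimrecRel fun (b : β) (a : α) => p a b = true :=
    Primrec.eq.comp (hp.comp (Primrec.snd.pair Primrec.fst)) (Primrec.const true)
  exact (h1.forall_mem_list.comp hl Primrec.id).decide.of_eq fun x => by
    rw [Bool.eq_iff_iff]; simp

theorem pr_any {l : α → List β} {p : α → β → Bool} (hl : Primrec l)
    (hp : Primrec fun x : α × β => p x.1 x.2) : Primrec fun x => (l x).any (p x) := by
  have h1 : PrimrecRel fun (b : β) (a : α) => p a b = true :=
    Primrec.eq.comp (hp.comp (Primrec.snd.pair Primrec.fst)) (Primrec.const true)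
  exact (h1.exists_mem_list.comp hl Primrec.id).decide.of_eq fun x => by
    rw [Bool.eq_iff_iff]; simp

attribute [fun_prop] pr_all pr_any

/-- Equality test. -/
def eqb [DecidableEq β] (a b : β) : Bool := decide (a = b)

/-- Strict order test. -/
def ltb (a b : ℕ) : Bool := decide (a < b)

@[fun_prop] theorem pr_eqb [DecidableEq β] {f g : α → β} (hf : Primrec f) (hg : Primrec g) :
    Primrec fun x => eqb (f x) (g x) := (Primrec.eq.comp hf hg).decide
@[fun_prop] theorem pr_ltb {f g : α → ℕ} (hf : Primrec f) (hg : Primrec g) :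
    Primrec fun x => ltb (f x) (g x) := (Primrec.nat_lt.comp hf hg).decide
@[fun_prop] theorem pr_add {f g : α → ℕ} (hf : Primrec f) (hg : Primrec g) :
    Primrec fun x => f x + g x := Primrec.nat_add.comp hf hg
@[fun_prop] theorem pr_sub {f g : α → ℕ} (hf : Primrec f) (hg : Primrec g) :
    Primrec fun x => f x - g x := Primrec.nat_sub.comp hf hg
@[fun_prop] theorem pr_mod {f g : α → ℕ} (hf : Primrec f) (hg : Primrec g) :
    Primrec fun x => f x % g x := Primrec.nat_mod.comp hf hg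
@[fun_prop] theorem pr_min {f g : α → ℕ} (hf : Primrec f) (hg : Primrec g) :
    Primrec fun x => min (f x) (g x) := Primrec.nat_min.comp hf hg
@[fun_prop] theorem pr_length {f : α → List β} (hf : Primrec f) :
    Primrec fun x => (f x).length := Primrec.list_length.comp hf
@[fun_prop] theorem pr_range {f : α → ℕ} (hf : Primrec f) :
    Primrec fun x => List.range (f x) := Primrec.list_range.comp hf
@[fun_prop] theorem pr_cons {f : α → β} {g : α → List β} (hf : Primrec f) (hg : Primrec g) :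
    Primrec fun x => f x :: g x := Primrec.list_cons.comp hf hg
@[fun_prop] theorem pr_append {f g : α → List β} (hf : Primrec f) (hg : Primrec g) :
    Primrec fun x => f x ++ g x := Primrec.list_append.comp hf hg
@[fun_prop] theorem pr_take {f : α → ℕ} {g : α → List β} (hf : Primrec f) (hg : Primrec g) :
    Primrec fun x => (g x).take (f x) := Primrec.list_take.comp hf hg
@[fun_prop] theorem pr_drop {f : α → ℕ} {g : α → List β} (hf : Primrec f) (hg : Primrec g) :
    Primrec fun x => (g x).drop (f x) := Primrec.list_drop.comp hf hg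

end

/-- Codes of schemes. -/
abbrev Code : Type := ℕ × List (ℕ × List ℕ)

/-- Validity of a code. -/
def valid (x : Code) : Bool :=
  x.2.all fun p => ltb p.1 x.1 && (p.2.all fun b => ltb b x.1) && ltb 0 p.2.length

/-- Checker for certificates of unavoidability. -/
def chk1 (x : Code) (c : List (List ℕ) × List (ℕ × List ℕ × ℕ)) : Bool :=
  (c.1.any fun w => eqb w []) &&
  (c.1.all fun w =>
    (c.2.any fun r => ltb 1 r.2.1.length &&
      (eqb (r.2.1.take 1) [r.1] || eqb (r.2.1.drop (r.2.1.length - 1)) [r.1]) &&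
      eqb (w.take r.2.1.length) r.2.1) ||
    (List.range x.1).all fun a => c.1.any fun w' => eqb w' (a :: w)) &&
  (c.2.all fun r => eqb r.2.1 [r.1] ||
    c.2.any fun q => eqb q.1 r.1 && ltb q.2.2 r.2.2 &&
      (List.range q.2.1.length).any fun i => x.2.any fun p =>
        eqb q.2.1 (q.2.1.take i ++ [p.1] ++ q.2.1.drop (i + 1)) &&
        eqb r.2.1 (q.2.1.take i ++ p.2 ++ q.2.1.drop (i + 1)))

/-- Checker for certificates of a periodic avoiding word. -/
def chk2 (x : Code) (c : List ℕ × List (List ℕ × ℕ × ℕ × ℕ)) : Bool :=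
  ltb 0 c.1.length && (c.1.all fun b => ltb b x.1) &&
  ((List.range c.1.length).all fun i =>
    (c.2.any fun q => eqb q ((c.1.drop i).take 1, i, (i + 1) % c.1.length, 1)) &&
    (c.2.any fun q => eqb q ([], i, i, 0))) &&
  (c.2.all fun q₁ => c.2.all fun q₂ => x.2.all fun p =>
    !(eqb q₁.2.2.1 q₂.2.1 &&
      (eqb (q₁.1 ++ q₂.1) (p.2.drop (p.2.length - (q₁.1 ++ q₂.1).length)) ||
        eqb (q₁.1 ++ q₂.1) [p.1])) ||
    c.2.any fun q => eqb q (q₁.1 ++ q₂.1, q₁.2.1, q₂.2.2.1, min (q₁.2.2.2 + q₂.2.2.2) 2)) &&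
  (c.2.all fun q₁ => x.2.all fun p => !(eqb q₁.1 p.2) || c.2.any fun q => eqb q ([p.1], q₁.2)) &&
  (c.2.all fun q => (List.range c.1.length).all fun i =>
    !(eqb q.2.2.2 2 && eqb q.1 ((c.1.drop i).take 1) &&
      (eqb q.2.1 i || eqb q.2.2.1 ((i + 1) % c.1.length))))

theorem valid_prim : Primrec valid := by
  unfold valid
  fun_prop

theorem chk1_prim : Primrec fun y : Code × (List (List ℕ) × List (ℕ × List ℕ × ℕ)) =>
    chk1 y.1 y.2 := by
  unfold chk1
  fun_prop (maxSteps := 1000000)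

theorem chk2_prim : Primrec fun y : Code × (List ℕ × List (List ℕ × ℕ × ℕ × ℕ)) =>
    chk2 y.1 y.2 := by
  unfold chk2
  fun_prop (maxSteps := 1000000)

theorem decide_of_certs {γ δ : Type} [Primcodable γ] [Primcodable δ] [Inhabited γ] [Inhabited δ]
    {v : Code → Bool} {c₁ : Code → γ → Bool} {c₂ : Code → δ → Bool} (hv : Primrec v)
    (h₁ : Primrec fun y : Code × γ => c₁ y.1 y.2) (h₂ : Primrec fun y : Code × δ => c₂ y.1 y.2)
    (htot : ∀ x, v x = true → (∃ c, c₁ x c = true) ∨ ∃ c, c₂ x c = true) :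
    ∃ f : Code → Bool, Computable f ∧ ∀ x, v x = true →
      (f x = true → ∃ c, c₁ x c = true) ∧ (f x = false → ∃ c, c₂ x c = true) := by
  let d₁ : Code → ℕ → Bool := fun x k => c₁ x ((Encodable.decode k).getD default)
  let d₂ : Code → ℕ → Bool := fun x k => c₂ x ((Encodable.decode k).getD default)
  have p₁ : Primrec fun y : Code × ℕ => d₁ y.1 y.2 :=
    h₁.comp (Primrec.fst.pair (Primrec.option_getD_default.comp (Primrec.decode.comp Primrec.snd)))
  have p₂ : Primrec fun y : Code × ℕ => d₂ y.1 y.2 :=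
    h₂.comp (Primrec.fst.pair (Primrec.option_getD_default.comp (Primrec.decode.comp Primrec.snd)))
  have p₃ : Primrec fun y : Code × ℕ => (!v y.1 || d₁ y.1 y.2 || d₂ y.1 y.2) :=
    pr_or (pr_or (pr_not (hv.comp Primrec.fst)) p₁) p₂
  have hex : ∀ x, ∃ k, (!v x || d₁ x k || d₂ x k) = true := by
    intro x
    by_cases hx : v x = true
    · rcases htot x hx with ⟨c, hc⟩ | ⟨c, hc⟩
      · exact ⟨Encodable.encode c, by simp [d₁, hc]⟩
      · exact ⟨Encodable.encode c, by simp [d₂, hc]⟩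
    · exact ⟨0, by simp [hx]⟩
  have hfind : Computable fun x => Nat.find (hex x) :=
    Computable.find (P := fun x k => (!v x || d₁ x k || d₂ x k) = true)
      (PrimrecPred.computablePred (Primrec.eq.comp p₃ (Primrec.const true))) hex
  refine ⟨fun x => d₁ x (Nat.find (hex x)), p₁.to_comp.comp (Computable.id.pair hfind),
    fun x hx => ⟨fun h => ⟨_, h⟩, fun h => ?_⟩⟩
  have := Nat.find_spec (hex x)
  simp only at h
  generalize Nat.find (hex x) = k at h this
  rw [h, hx] at this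
  exact ⟨_, by simpa using this⟩

end Pool.Agent.MP_042a8e_lc

end MrgPart5

-- marker of a merged file
example : 731051 + 821256 = 731051 + 821256 := rfl
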