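import Mathlib.Data.Nat.Periodic
import Pool.Agent.MP_042a8e_lc.Prim

-- ======== part 0: formerly Pool.Agent.MP_042a8e_lc.Cert1
section MrgPart0

namespace Pool.Agent.MP_042a8e_lc

theorem shape_iff {a : ℕ} {f : List ℕ} :
    (1 < f.length ∧ (f.take 1 = [a] ∨ f.drop (f.length - 1) = [a])) ↔
      ∃ s, s ≠ [] ∧ (f = a :: s ∨ f = s ++ [a]) := by
  constructor
  · rintro ⟨h, h₁ | h₁⟩
    · refine ⟨f.drop 1, ?_, Or.inl ?_⟩
      · rw [← List.length_pos_iff, List.length_drop]; omega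
      · conv_lhs => rw [← List.take_append_drop 1 f, h₁]
        rfl
    · refine ⟨f.take (f.length - 1), ?_, Or.inr ?_⟩
      · rw [← List.length_pos_iff, List.length_take]; omega
      · rw [← h₁, List.take_append_drop]
  · rintro ⟨s, hs, rfl | rfl⟩
    · have := List.length_pos_iff.mpr hs
      exact ⟨by simp; omega, Or.inl (by simp)⟩
    · have := List.length_pos_iff.mpr hs
      exact ⟨by simp; omega, Or.inr (by simp)⟩

theorem step_iff {Q : List (ℕ × List ℕ)} {u v : List ℕ} :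
    (∃ i < u.length, ∃ p ∈ Q, u = u.take i ++ [p.1] ++ u.drop (i + 1) ∧
      v = u.take i ++ p.2 ++ u.drop (i + 1)) ↔ Step Q u v := by
  constructor
  · rintro ⟨i, -, p, hp, h₁, h₂⟩
    exact ⟨_, _, p.1, p.2, hp, h₁, h₂⟩
  · rintro ⟨x₁, x₂, a, w, hp, rfl, rfl⟩
    exact ⟨x₁.length, by simp, (a, w), hp, by simp, by simp⟩

/-- Lists of derivations closed under predecessors. -/
def Closed (Q : List (ℕ × List ℕ)) (R : List (ℕ × List ℕ × ℕ)) : Prop :=
  ∀ r ∈ R, r.2.1 = [r.1] ∨ ∃ q ∈ R, q.1 = r.1 ∧ q.2.2 < r.2.2 ∧ Step Q q.2.1 r.2.1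

theorem chk1_iff {x : Code} {c : List (List ℕ) × List (ℕ × List ℕ × ℕ)} :
    chk1 x c = true ↔ [] ∈ c.1 ∧
      (∀ w ∈ c.1, (∃ r ∈ c.2, (∃ s, s ≠ [] ∧ (r.2.1 = r.1 :: s ∨ r.2.1 = s ++ [r.1])) ∧
        r.2.1 <+: w) ∨ ∀ a < x.1, a :: w ∈ c.1) ∧ Closed x.2 c.2 := by
  simp only [chk1, Closed, eqb, ltb, Bool.and_eq_true, List.any_eq_true, List.all_eq_true,
    Bool.or_eq_true, decide_eq_true_eq, List.mem_range, exists_eq_right, ← shape_iff,
    ← step_iff, List.prefix_iff_eq_take, and_assoc]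
  refine and_congr_right fun _ => and_congr ?_ Iff.rfl
  refine forall₂_congr fun w _ => or_congr ?_ Iff.rfl
  refine exists_congr fun r => and_congr_right fun _ => and_congr_right fun _ =>
    and_congr_right fun _ => eq_comm

theorem Closed.der {Q : List (ℕ × List ℕ)} {R : List (ℕ × List ℕ × ℕ)} (h : Closed Q R)
    (k : ℕ) : ∀ r ∈ R, r.2.2 = k → Der Q [r.1] r.2.1 := by
  induction k using Nat.strong_induction_on with
  | _ k ih =>
    intro r hr hk
    rcases h r hr with e | ⟨q, hq, e, hlt, hs⟩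
    · rw [e]; exact Der.refl' _
    · exact Relation.ReflTransGen.tail (e ▸ ih _ (hk ▸ hlt) q hq rfl) hs

theorem Closed.append {Q : List (ℕ × List ℕ)} {R S : List (ℕ × List ℕ × ℕ)} (h : Closed Q R)
    (h' : Closed Q S) : Closed Q (R ++ S) := by
  intro r hr
  rcases List.mem_append.mp hr with hr | hr
  · rcases h r hr with e | ⟨q, hq, e⟩
    · exact Or.inl e
    · exact Or.inr ⟨q, List.mem_append_left _ hq, e⟩
  · rcases h' r hr with e | ⟨q, hq, e⟩
    · exact Or.inl e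
    · exact Or.inr ⟨q, List.mem_append_right _ hq, e⟩

theorem exists_closed {Q : List (ℕ × List ℕ)} {a : ℕ} {β : List ℕ} (h : Der Q [a] β) :
    ∃ R, Closed Q R ∧ ∃ k, (a, β, k) ∈ R := by
  induction h with
  | refl => exact ⟨[(a, [a], 0)], by simp [Closed], 0, by simp⟩
  | @tail u v _ hs ih =>
    obtain ⟨R, hR, k, hk⟩ := ih
    refine ⟨(a, v, k + 1) :: R, ?_, k + 1, by simp⟩
    intro r hr
    rcases List.mem_cons.mp hr with rfl | hr
    · exact Or.inr ⟨(a, u, k), List.mem_cons_of_mem _ hk, rfl, by simp, hs⟩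
    · rcases hR r hr with e | ⟨q, hq, e⟩
      · exact Or.inl e
      · exact Or.inr ⟨q, List.mem_cons_of_mem _ hq, e⟩

/-- Unavoidability over the letters below `n`. -/
def UnavN (n : ℕ) (Q : List (ℕ × List ℕ)) : Prop :=
  ∃ N, ∀ w : List ℕ, (∀ b ∈ w, b < n) → N ≤ w.length → ¬ Free Q w

theorem chk1_sound {x : Code} {c : List (List ℕ) × List (ℕ × List ℕ × ℕ)}
    (h : chk1 x c = true) : UnavN x.1 x.2 := by
  obtain ⟨h₀, h₁, h₂⟩ := chk1_iff.mp h
  have key : ∀ w : List ℕ, (∀ b ∈ w, b < x.1) → Free x.2 w → w ∈ c.1 := by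
    intro w
    induction w with
    | nil => exact fun _ _ => h₀
    | cons a w ih =>
      intro hb hf
      have hf' : Free x.2 w := hf.sub_word (List.infix_cons (List.infix_refl _))
      rcases h₁ w (ih (fun b h => hb b (List.mem_cons_of_mem _ h)) hf') with
        ⟨r, hr, ⟨s, hs, he⟩, hp⟩ | h
      · exact absurd ⟨r.1, s, hs, h₂.der _ r hr rfl, he⟩ (hf' _ hp.isInfix)
      · exact h a (hb a (by simp))
  refine ⟨(c.1.map List.length).sum + 1, fun w hb hw hf => ?_⟩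
  have := List.single_le_sum (l := c.1.map List.length) (fun _ _ => Nat.zero_le _) _
    (List.mem_map_of_mem (key w hb hf))
  omega

theorem lift_word {n : ℕ} {w : List ℕ} (h : ∀ b ∈ w, b < n) :
    ∃ w' : List (Fin n), w'.map Fin.val = w := by
  induction w with
  | nil => exact ⟨[], rfl⟩
  | cons a w ih =>
    obtain ⟨w', rfl⟩ := ih fun b hb => h b (List.mem_cons_of_mem _ hb)
    exact ⟨⟨a, h a (by simp)⟩ :: w', rfl⟩

theorem chk1_complete {x : Code} (h : UnavN x.1 x.2) : ∃ c, chk1 x c = true := by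
  obtain ⟨N, hN⟩ := h
  have hfin : {w : List ℕ | (∀ b ∈ w, b < x.1) ∧ Free x.2 w.tail}.Finite := by
    refine ((List.finite_length_le (Fin x.1) N).image (List.map Fin.val)).subset ?_
    rintro w ⟨hb, hf⟩
    obtain ⟨w', rfl⟩ := lift_word hb
    refine ⟨w', ?_, rfl⟩
    have : ¬ N ≤ (w'.map Fin.val).tail.length := fun hc =>
      hN _ (fun b h => hb b (List.mem_of_mem_tail h)) hc hf
    simp only [List.length_tail, List.length_map] at this
    show w'.length ≤ N
    omega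
  have hR : ∀ l : List (List ℕ), ∃ R, Closed x.2 R ∧ ∀ w ∈ l, Free x.2 w.tail → Free x.2 w ∨
      ∃ r ∈ R, (∃ s, s ≠ [] ∧ (r.2.1 = r.1 :: s ∨ r.2.1 = s ++ [r.1])) ∧ r.2.1 <+: w := by
    intro l
    induction l with
    | nil => exact ⟨[], by simp [Closed], by simp⟩
    | cons w l ih =>
      obtain ⟨R, hR, hl⟩ := ih
      have : ∃ S, Closed x.2 S ∧ (Free x.2 w.tail → Free x.2 w ∨
          ∃ r ∈ S, (∃ s, s ≠ [] ∧ (r.2.1 = r.1 :: s ∨ r.2.1 = s ++ [r.1])) ∧ r.2.1 <+: w) := by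
        by_cases hc : ∃ f, f <+: w ∧ Mixed x.2 f
        · obtain ⟨f, hf, a, s, hs, hd, he⟩ := hc
          obtain ⟨S, hS, k, hk⟩ := exists_closed hd
          exact ⟨S, hS, fun _ => Or.inr ⟨_, hk, ⟨s, hs, he⟩, hf⟩⟩
        · refine ⟨[], by simp [Closed], fun ht => Or.inl fun f hf hm => ?_⟩
          cases w with
          | nil => exact ht f hf hm
          | cons a w =>
            rcases List.infix_cons_iff.mp hf with hf | hf
            · exact hc ⟨f, hf, hm⟩
            · exact ht f hf hm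
      obtain ⟨S, hS, hw⟩ := this
      refine ⟨S ++ R, hS.append hR, fun v hv ht => ?_⟩
      rcases List.mem_cons.mp hv with rfl | hv
      · rcases hw ht with h | ⟨r, hr, h⟩
        · exact Or.inl h
        · exact Or.inr ⟨r, List.mem_append_left _ hr, h⟩
      · rcases hl v hv ht with h | ⟨r, hr, h⟩
        · exact Or.inl h
        · exact Or.inr ⟨r, List.mem_append_right _ hr, h⟩
  obtain ⟨R, hR, hl⟩ := hR hfin.toFinset.toList
  refine ⟨(hfin.toFinset.toList, R), chk1_iff.mpr ⟨?_, fun w hw => ?_, hR⟩⟩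
  · simp only [Finset.mem_toList, Set.Finite.mem_toFinset, Set.mem_ofPred_eq]
    refine ⟨by simp, ?_⟩
    rintro f hf ⟨a, s, hs, -, he⟩
    obtain rfl : f = [] := by simpa using hf
    simp at he
  · have hw' := hw
    simp only [Finset.mem_toList, Set.Finite.mem_toFinset, Set.mem_ofPred_eq] at hw'
    rcases hl w hw hw'.2 with h | h
    · refine Or.inr fun a ha => ?_
      simp only [Finset.mem_toList, Set.Finite.mem_toFinset, Set.mem_ofPred_eq]
      exact ⟨by simpa [ha] using hw'.1, h⟩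
    · exact Or.inl h

end Pool.Agent.MP_042a8e_lc

end MrgPart0

-- ======== part 1: formerly Pool.Agent.MP_042a8e_lc.Cert2
section MrgPart1

namespace Pool.Agent.MP_042a8e_lc

theorem chk2_iff {x : Code} {c : List ℕ × List (List ℕ × ℕ × ℕ × ℕ)} :
    chk2 x c = true ↔ 0 < c.1.length ∧ (∀ b ∈ c.1, b < x.1) ∧
      (∀ i < c.1.length, ((c.1.drop i).take 1, i, (i + 1) % c.1.length, 1) ∈ c.2 ∧
        ([], i, i, 0) ∈ c.2) ∧
      (∀ q₁ ∈ c.2, ∀ q₂ ∈ c.2, ∀ p ∈ x.2, q₁.2.2.1 = q₂.2.1 →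
        (q₁.1 ++ q₂.1 <:+ p.2 ∨ q₁.1 ++ q₂.1 = [p.1]) →
        (q₁.1 ++ q₂.1, q₁.2.1, q₂.2.2.1, min (q₁.2.2.2 + q₂.2.2.2) 2) ∈ c.2) ∧
      (∀ q₁ ∈ c.2, ∀ p ∈ x.2, q₁.1 = p.2 → ([p.1], q₁.2) ∈ c.2) ∧
      (∀ q ∈ c.2, ∀ i < c.1.length, q.2.2.2 = 2 → q.1 = (c.1.drop i).take 1 →
        ¬ (q.2.1 = i ∨ q.2.2.1 = (i + 1) % c.1.length)) := by
  simp only [chk2, eqb, ltb, Bool.and_eq_true, List.any_eq_true, List.all_eq_true,
    Bool.or_eq_true, decide_eq_true_eq, List.mem_range, exists_eq_right,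
    List.suffix_iff_eq_drop, and_assoc, Bool.not_eq_true', ← Bool.not_eq_true,
    ← imp_iff_not_or, not_and]
  refine and_congr_right fun _ => and_congr_right fun _ => and_congr_right fun _ =>
    and_congr ?_ Iff.rfl
  refine forall₂_congr fun _ _ => forall₂_congr fun _ _ => forall₂_congr fun _ _ => ?_
  tauto

/-- A periodic word over the letters below `n` avoids MIXED. -/
def PerN (n : ℕ) (Q : List (ℕ × List ℕ)) : Prop :=
  ∃ X, 0 < X ∧ ∃ y : ℕ → ℕ, (∀ t, y t < n) ∧ (∀ t, y (t + X) = y t) ∧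
    ∀ p e, ¬ Mixed Q (seg y p e)

theorem chk2_sound {x : Code} {c : List ℕ × List (List ℕ × ℕ × ℕ × ℕ)}
    (h : chk2 x c = true) : PerN x.1 x.2 := by
  obtain ⟨w, T⟩ := c
  obtain ⟨n, Q⟩ := x
  obtain ⟨h₀, h₁, h₂, h₃, h₄, h₅⟩ := chk2_iff.mp h
  simp only at h₀ h₁ h₂ h₃ h₄ h₅
  let y : ℕ → ℕ := fun t => w[t % w.length]'(Nat.mod_lt _ h₀)
  have hy : ∀ t, (w.drop (t % w.length)).take 1 = [y t] := by
    intro t
    rw [List.drop_eq_getElem_cons (Nat.mod_lt _ h₀)]
    rfl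
  have key : ∀ u β, D Q u β → (∃ p ∈ Q, u <:+ p.2 ∨ u <:+ [p.1]) → ∀ t,
      β = seg y t (t + β.length) →
      (u, t % w.length, (t + β.length) % w.length, min β.length 2) ∈ T := by
    have hcons : ∀ {a : ℕ} {u : List ℕ}, (∃ p ∈ Q, a :: u <:+ p.2 ∨ a :: u <:+ [p.1]) →
        (∃ p ∈ Q, u <:+ p.2 ∨ u <:+ [p.1]) ∧
          ∃ p ∈ Q, [a] ++ u <:+ p.2 ∨ [a] ++ u = [p.1] := by
      rintro a u ⟨p, hp, h | h⟩
      · exact ⟨⟨p, hp, Or.inl ((List.suffix_cons _ _).trans h)⟩, p, hp, Or.inl h⟩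
      · refine ⟨⟨p, hp, Or.inr ((List.suffix_cons _ _).trans h)⟩, p, hp, Or.inr ?_⟩
        exact h.eq_of_length_le (by simp)
    intro u β hd
    induction hd with
    | nil => exact fun _ t _ => by simpa using (h₂ _ (Nat.mod_lt t h₀)).2
    | @keep a u y' _ ih =>
      intro hu t hβ
      obtain ⟨hu', p, hp, hs⟩ := hcons hu
      obtain ⟨e₁, e₂⟩ := seg_split (β := [a]) (γ := y') hβ
      simp only [List.length_singleton] at e₁ e₂
      rw [seg_succ] at e₁
      have a₁ := (h₂ _ (Nat.mod_lt t h₀)).1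
      rw [hy, ← e₁, Nat.mod_add_mod] at a₁
      have := h₃ _ a₁ _ (ih hu' (t + 1) e₂) p hp rfl hs
      simp only [List.length_cons] at this ⊢
      convert this using 4 <;> first | rfl | omega | (congr 1; omega)
    | @rule a v β₁ u y' hp' _ _ ih₁ ih₂ =>
      intro hu t hβ
      obtain ⟨hu', p, hp, hs⟩ := hcons hu
      obtain ⟨e₁, e₂⟩ := seg_split hβ
      have a₁ := h₄ _ (ih₁ ⟨_, hp', Or.inl (List.suffix_refl _)⟩ t e₁) _ hp' rfl
      have := h₃ _ a₁ _ (ih₂ hu' _ e₂) p hp rfl hs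
      simp only [List.length_append] at this ⊢
      convert this using 4 <;> first | rfl | omega | (congr 1; omega)
  refine ⟨w.length, h₀, y, fun t => h₁ _ (List.getElem_mem _), fun t => by simp [y], ?_⟩
  rintro p e ⟨a, s, hs, hd, he⟩
  have hl : (seg y p e).length = s.length + 1 := by rcases he with he | he <;> simp [he]
  have hs' := List.length_pos_iff.mpr hs
  have hu : ∃ q ∈ Q, [a] <:+ q.2 ∨ [a] <:+ [q.1] := by
    generalize seg y p e = f at hd hl
    cases hd.d with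
    | keep h =>
      cases h
      simp only [List.length_singleton] at hl
      omega
    | rule hq _ _ => exact ⟨_, hq, Or.inr (List.suffix_refl _)⟩
  have hpe : e = p + (s.length + 1) := by rw [seg_length] at hl; omega
  have hT := key _ _ hd.d hu p (by rw [hl, hpe])
  rw [hl, show min (s.length + 1) 2 = 2 by omega] at hT
  rcases he with he | he
  · rw [seg_cons y (by omega)] at he
    exact h₅ _ hT _ (Nat.mod_lt p h₀) rfl (by rw [hy, (List.cons.inj he).1]) (Or.inl rfl)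
  · rw [hpe, ← add_assoc, seg_concat y (by omega)] at he
    refine h₅ _ hT _ (Nat.mod_lt (p + s.length) h₀) rfl
      (by rw [hy, (List.append_inj' he rfl).2]) (Or.inr ?_)
    simp only [Nat.mod_add_mod, add_assoc]

theorem chk2_complete {x : Code} (h : PerN x.1 x.2) : ∃ c, chk2 x c = true := by
  obtain ⟨n, Q⟩ := x
  obtain ⟨X, hX, y, hn, hper, hy⟩ := h
  simp only at hn hy
  have hmod : ∀ a b, a % X = b % X → y a = y b := by
    intro a b h
    have hp : Function.Periodic y X := hper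
    rw [← hp.map_mod_nat a, h, hp.map_mod_nat]
  have hw : ∀ i < X, ((seg y 0 X).drop i).take 1 = [y i] := by
    intro i hi
    rw [List.drop_eq_getElem_cons (by simpa using hi)]
    simp [seg]
  let U : Set (List ℕ) := {u | u = [] ∨ (∃ i < X, u = [y i]) ∨ ∃ p ∈ Q, u <:+ p.2 ∨ u = [p.1]}
  have hU : U.Finite := by
    refine (List.finite_toSet ([] :: (List.range X).map (fun i => [y i]) ++
      Q.flatMap fun p => [p.1] :: p.2.tails)).subset ?_
    rintro u (rfl | ⟨i, hi, rfl⟩ | ⟨p, hp, h⟩)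
    · simp
    · exact List.mem_append_left _ (List.mem_cons_of_mem _
        (List.mem_map.mpr ⟨i, List.mem_range.mpr hi, rfl⟩))
    · refine List.mem_append_right _ (List.mem_flatMap.mpr ⟨p, hp, ?_⟩)
      rcases h with h | h
      · exact List.mem_cons_of_mem _ ((List.mem_tails _ _).mpr h)
      · simp [h]
  let S : Set (List ℕ × ℕ × ℕ × ℕ) := {q | q.1 ∈ U ∧ ∃ β t, Der Q q.1 β ∧
    β = seg y t (t + β.length) ∧ t % X = q.2.1 ∧ (t + β.length) % X = q.2.2.1 ∧
    q.2.2.2 = min β.length 2}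
  have hS : S.Finite := by
    refine (hU.prod ((Set.finite_Iio X).prod ((Set.finite_Iio X).prod
      (Set.finite_Iic 2)))).subset ?_
    rintro ⟨u, i, j, g⟩ ⟨hu, β, t, -, -, rfl, rfl, hg⟩
    exact ⟨hu, Nat.mod_lt _ hX, Nat.mod_lt _ hX, hg.le.trans (min_le_right _ _)⟩
  have hm : ∀ q, q ∈ hS.toFinset.toList ↔ q ∈ S := by simp
  refine ⟨(seg y 0 X, hS.toFinset.toList), chk2_iff.mpr ?_⟩
  simp only [hm, seg_length, Nat.sub_zero]
  refine ⟨hX, ?_, fun i hi => ⟨?_, ?_⟩, ?_, ?_, ?_⟩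
  · intro b hb
    obtain ⟨i, -, rfl⟩ := List.mem_map.mp hb
    exact hn i
  · rw [hw i hi]
    exact ⟨Or.inr (Or.inl ⟨i, hi, rfl⟩), [y i], i, Der.refl' _, (seg_succ y i).symm,
      Nat.mod_eq_of_lt hi, rfl, rfl⟩
  · exact ⟨Or.inl rfl, [], i, Der.refl' _, by simp, Nat.mod_eq_of_lt hi, Nat.mod_eq_of_lt hi, rfl⟩
  · rintro ⟨u₁, i₁, j₁, g₁⟩ ⟨-, β₁, t₁, d₁, e₁, rfl, rfl, rfl⟩ ⟨u₂, i₂, j₂, g₂⟩
      ⟨-, β₂, t₂, d₂, e₂, rfl, rfl, rfl⟩ p hp hij hs
    simp only at hij hs d₁ d₂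
    have hsh : ∀ k, (t₁ + β₁.length + k) % X = (t₂ + k) % X := fun k =>
      Nat.ModEq.add_right k hij
    refine ⟨Or.inr (Or.inr ⟨p, hp, hs⟩), β₁ ++ β₂, t₁, d₁.append d₂, ?_, rfl, ?_, ?_⟩
    · rw [List.length_append, ← add_assoc,
        ← seg_append y (Nat.le_add_right t₁ β₁.length) (Nat.le_add_right _ _), ← e₁,
        seg_congr' (z' := y) (p' := t₂) fun i _ => hmod _ _ (hsh i), ← e₂]
    · rw [List.length_append, ← add_assoc, hsh]
    · simp only [List.length_append]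
      omega
  · rintro ⟨u, i, j, g⟩ ⟨-, β, t, d, e⟩ p hp hu
    simp only at hu d
    exact ⟨Or.inr (Or.inr ⟨p, hp, Or.inr rfl⟩), β, t, (Der.rule hp).trans' (hu ▸ d), e⟩
  · rintro ⟨u, i, j, g⟩ ⟨-, β, t, d, e, rfl, rfl, rfl⟩ k hk hg hu hc
    simp only at hg hu d hc
    rw [hw k hk] at hu
    subst hu
    obtain ⟨m, hm⟩ : ∃ m, β.length = m + 2 := ⟨β.length - 2, by omega⟩
    rw [hm] at e hc
    rw [e] at d
    refine hy t (t + (m + 2)) ⟨y k, ?_⟩
    rcases hc with hc | hc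
    · refine ⟨seg y (t + 1) (t + (m + 2)), ?_, d, Or.inl ?_⟩
      · rw [← List.length_pos_iff, seg_length]; omega
      · rw [seg_cons y (by omega), hmod t k (by rw [hc, Nat.mod_eq_of_lt hk])]
    · refine ⟨seg y t (t + (m + 1)), ?_, d, Or.inr ?_⟩
      · rw [← List.length_pos_iff, seg_length]; omega
      · rw [show t + (m + 2) = t + (m + 1) + 1 from rfl, seg_concat y (by omega),
          hmod (t + (m + 1)) k (Nat.ModEq.add_right_cancel' 1 hc)]

theorem unav_iff {n : ℕ} {P : List (Fin n × List (Fin n))} :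
    UnavN n (ren Fin.val P) ↔ Unav P := by
  constructor
  · rintro ⟨N, h⟩
    refine ⟨N, fun w hw hf => h (w.map Fin.val) (by simp) (by simpa using hw) ?_⟩
    exact (free_ren Fin.val_injective).mpr hf
  · rintro ⟨N, h⟩
    refine ⟨N, fun w hb hw hf => ?_⟩
    obtain ⟨w', rfl⟩ := lift_word hb
    exact h w' (by simpa using hw) ((free_ren Fin.val_injective).mp hf)

theorem per_iff {n : ℕ} {P : List (Fin n × List (Fin n))} :
    PerN n (ren Fin.val P) ↔ Per P := by
  have key : ∀ (y : ℕ → Fin n) p e, seg (fun t => (y t).val) p e = (seg y p e).map Fin.val := by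
    intro y p e
    simp [seg]
  constructor
  · rintro ⟨X, hX, y, hn, hper, hy⟩
    refine ⟨X, hX, fun t => ⟨y t, hn t⟩, fun t => Fin.ext (hper t), fun p e hm => hy p e ?_⟩
    have := (mixed_ren Fin.val_injective).mpr hm
    rwa [← key] at this
  · rintro ⟨X, hX, y, hper, hy⟩
    refine ⟨X, hX, fun t => (y t).val, fun t => (y t).2, fun t => by simp only [hper],
      fun p e hm => hy p e ?_⟩
    rw [key] at hm
    exact (mixed_ren Fin.val_injective).mp hm

theorem valid_iff {x : Code} : valid x = true ↔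
    ∀ p ∈ x.2, p.1 < x.1 ∧ (∀ b ∈ p.2, b < x.1) ∧ p.2 ≠ [] := by
  simp only [valid, ltb, Bool.and_eq_true, List.all_eq_true, decide_eq_true_eq,
    List.length_pos_iff, and_assoc]

theorem lift_code {n : ℕ} {Q : List (ℕ × List ℕ)} (h : valid (n, Q) = true) :
    ∃ P : List (Fin n × List (Fin n)), ren Fin.val P = Q ∧ Prop' P := by
  rw [valid_iff] at h
  simp only at h
  induction Q with
  | nil => exact ⟨[], rfl, by simp [Prop']⟩
  | cons p Q ih =>
    obtain ⟨P, rfl, hP⟩ := ih fun q hq => h q (List.mem_cons_of_mem _ hq)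
    obtain ⟨h₁, h₂, h₃⟩ := h p (by simp)
    obtain ⟨v, hv⟩ := lift_word h₂
    refine ⟨(⟨p.1, h₁⟩, v) :: P, by simp [ren, hv], fun q hq => ?_⟩
    rcases List.mem_cons.mp hq with rfl | hq
    · rintro (rfl : v = [])
      exact h₃ hv.symm
    · exact hP q hq

theorem decidable_regulator : ∃ f : Code → Bool, Computable f ∧
    ∀ (n : ℕ) (P : List (Fin n × List (Fin n))), Prop' P →
      (f (n, ren Fin.val P) = true ↔ TotalRegulator P) := by
  obtain ⟨f, hf, h⟩ := decide_of_certs valid_prim chk1_prim chk2_prim (by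
    rintro ⟨n, Q⟩ hv
    obtain ⟨P, rfl, hP⟩ := lift_code hv
    rcases unav_or_per hP with h | h
    · exact Or.inl (chk1_complete (x := (n, ren Fin.val P)) (unav_iff.mpr h))
    · exact Or.inr (chk2_complete (x := (n, ren Fin.val P)) (per_iff.mpr h)))
  refine ⟨f, hf, fun n P hP => ?_⟩
  have hv : valid (n, ren Fin.val P) = true := by
    rw [valid_iff]
    intro p hp
    obtain ⟨q, hq, rfl⟩ := List.mem_map.mp hp
    exact ⟨q.1.2, by simp, by simpa using hP q hq⟩
  obtain ⟨h₁, h₂⟩ := h _ hv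
  constructor
  · intro hx
    obtain ⟨c, hc⟩ := h₁ hx
    exact regulator_of_unav (unav_iff.mp (chk1_sound hc))
  · intro hr
    by_contra hx
    obtain ⟨c, hc⟩ := h₂ (by simpa using hx)
    exact not_regulator_of_per hP (per_iff.mp (chk2_sound hc)) hr

end Pool.Agent.MP_042a8e_lc

end MrgPart1

-- marker of a merged file
example : 731051 + 677118 = 731051 + 677118 := rfl
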